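import Mathlib

/-!
# Claim G: definitions and basic linear algebra

`V` is a finite-dimensional rational vector space, `B` a finite set of vectors. `co ρ v` is the dual
basis vector of `v ∈ ρ` for a basis `ρ` of `V` (a finite set of vectors).
-/

set_option autoImplicit false

open Finset Submodule Module

namespace Pool.Agent.Lib.ClG

variable {V : Type*} [AddCommGroup V] [Module ℚ V]

/-- `ρ` is a basis of `V` -/
def IsB (ρ : Finset V) : Prop :=
  LinearIndependent ℚ (fun v : ρ => (v : V)) ∧ span ℚ (ρ : Set V) = ⊤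

/-- `c` is the dual basis vector of `v` for `ρ` -/
def IsDual (ρ : Finset V) (c : Dual ℚ V) (v : V) : Prop :=
  v ∈ ρ ∧ c v = 1 ∧ ∀ u ∈ ρ, u ≠ v → c u = 0

/-- the basis of `V` given by `IsB` -/
noncomputable def bas {ρ : Finset V} (h : IsB ρ) : Basis ρ ℚ V :=
  Basis.mk h.1 (by
    have e : Set.range (fun v : ρ => (v : V)) = (ρ : Set V) := by
      ext x; simp
    rw [e]; exact h.2.ge)

lemma bas_apply {ρ : Finset V} (h : IsB ρ) (v : ρ) : bas h v = (v : V) := by
  simp [bas]

open Classical in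
/-- the dual basis vector of `v` (zero if `ρ` is not a basis or `v ∉ ρ`) -/
noncomputable def co (ρ : Finset V) (v : V) : Dual ℚ V :=
  if h : IsB ρ ∧ v ∈ ρ then (bas h.1).coord ⟨v, h.2⟩ else 0

lemma co_eq {ρ : Finset V} (h : IsB ρ) {v : V} (hv : v ∈ ρ) : co ρ v = (bas h).coord ⟨v, hv⟩ := by
  unfold co
  rw [dif_pos ⟨h, hv⟩]

lemma co_self {ρ : Finset V} (h : IsB ρ) {v : V} (hv : v ∈ ρ) : co ρ v v = 1 := by
  rw [co_eq h hv]
  have := (bas h).coord_apply ⟨v, hv⟩
  have e : (bas h).repr v = Finsupp.single ⟨v, hv⟩ 1 := by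
    conv_lhs => rw [show v = ((⟨v, hv⟩ : ρ) : V) from rfl, ← bas_apply h ⟨v, hv⟩]
    exact (bas h).repr_self ⟨v, hv⟩
  rw [this, e, Finsupp.single_eq_same]

lemma co_ne {ρ : Finset V} (h : IsB ρ) {v u : V} (hv : v ∈ ρ) (hu : u ∈ ρ) (huv : u ≠ v) :
    co ρ v u = 0 := by
  rw [co_eq h hv]
  have := (bas h).coord_apply ⟨v, hv⟩
  have e : (bas h).repr u = Finsupp.single ⟨u, hu⟩ 1 := by
    conv_lhs => rw [show u = ((⟨u, hu⟩ : ρ) : V) from rfl, ← bas_apply h ⟨u, hu⟩]
    exact (bas h).repr_self ⟨u, hu⟩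
  rw [this, e, Finsupp.single_eq_of_ne]
  intro hh
  exact huv (by simpa using (congrArg Subtype.val hh).symm)

lemma isDual_co {ρ : Finset V} (h : IsB ρ) {v : V} (hv : v ∈ ρ) : IsDual ρ (co ρ v) v :=
  ⟨hv, co_self h hv, fun _ hu huv => co_ne h hv hu huv⟩

/-- expansion of a vector -/
lemma expand {ρ : Finset V} (h : IsB ρ) (x : V) : ∑ v ∈ ρ, co ρ v x • v = x := by
  have := (bas h).sum_repr x
  rw [← Finset.sum_coe_sort ρ (fun v => co ρ v x • v)]
  conv_rhs => rw [← this]
  apply Finset.sum_congr rfl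
  intro v _
  rw [co_eq h v.2, bas_apply, Basis.coord_apply]

/-- expansion of a functional -/
lemma expand_dual {ρ : Finset V} (h : IsB ρ) (c : Dual ℚ V) (x : V) :
    c x = ∑ v ∈ ρ, co ρ v x * c v := by
  conv_lhs => rw [← expand h x]
  rw [map_sum]
  apply Finset.sum_congr rfl
  intro v _
  rw [map_smul, smul_eq_mul]

lemma dual_ext {ρ : Finset V} (h : IsB ρ) {c d : Dual ℚ V} (hcd : ∀ v ∈ ρ, c v = d v) : c = d := by
  ext x
  rw [expand_dual h c x, expand_dual h d x]
  exact Finset.sum_congr rfl fun v hv => by rw [hcd v hv]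

lemma dual_ext_span {B : Finset V} (h : span ℚ (B : Set V) = ⊤) {c d : Dual ℚ V}
    (hcd : ∀ v ∈ B, c v = d v) : c = d := by
  ext x
  have hx : x ∈ span ℚ (B : Set V) := by rw [h]; trivial
  induction hx using Submodule.span_induction with
  | mem v hv => exact hcd v hv
  | zero => simp
  | add a b _ _ ha hb => rw [map_add, map_add, ha, hb]
  | smul r a _ ha => rw [map_smul, map_smul, ha]

/-- a dual basis vector is the coordinate -/
lemma IsDual.eq_co {ρ : Finset V} (h : IsB ρ) {c : Dual ℚ V} {v : V} (hc : IsDual ρ c v) :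
    c = co ρ v := by
  apply dual_ext h
  intro u hu
  by_cases huv : u = v
  · subst huv; rw [hc.2.1, co_self h hc.1]
  · rw [hc.2.2 u hu huv, co_ne h hc.1 hu huv]

/-- two-term functional -/
lemma two_term {ρ : Finset V} (h : IsB ρ) {c : Dual ℚ V} {u v : V} (hu : u ∈ ρ) (hv : v ∈ ρ)
    (huv : u ≠ v) (h0 : ∀ w ∈ ρ, w ≠ u → w ≠ v → c w = 0) (x : V) :
    c x = co ρ u x * c u + co ρ v x * c v := by
  classical
  rw [expand_dual h c x]
  rw [← Finset.add_sum_erase ρ _ hu]
  congr 1
  have hv' : v ∈ ρ.erase u := Finset.mem_erase.mpr ⟨huv.symm, hv⟩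
  rw [← Finset.add_sum_erase _ _ hv']
  have : ∑ w ∈ (ρ.erase u).erase v, co ρ w x * c w = 0 := by
    apply Finset.sum_eq_zero
    intro w hw
    rw [Finset.mem_erase, Finset.mem_erase] at hw
    rw [h0 w hw.2.2 hw.2.1 hw.1, mul_zero]
  rw [this, add_zero]

/-- one-term functional -/
lemma one_term {ρ : Finset V} (h : IsB ρ) {c : Dual ℚ V} {v : V} (hv : v ∈ ρ)
    (h0 : ∀ w ∈ ρ, w ≠ v → c w = 0) (x : V) : c x = co ρ v x * c v := by
  classical
  rw [expand_dual h c x, ← Finset.add_sum_erase ρ _ hv]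
  have : ∑ w ∈ ρ.erase v, co ρ w x * c w = 0 := by
    apply Finset.sum_eq_zero
    intro w hw
    rw [Finset.mem_erase] at hw
    rw [h0 w hw.2 hw.1, mul_zero]
  rw [this, add_zero]

lemma IsB.card {ρ : Finset V} (h : IsB ρ) : ρ.card = finrank ℚ V := by
  rw [Module.finrank_eq_card_basis (bas h), Fintype.card_coe]

set_option linter.unusedSectionVars false

variable [FiniteDimensional ℚ V]

lemma isB_of_indep {ρ : Finset V} (hli : LinearIndependent ℚ (fun v : ρ => (v : V)))
    (hc : ρ.card = finrank ℚ V) : IsB ρ := by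
  refine ⟨hli, ?_⟩
  have e : Set.range (fun v : ρ => (v : V)) = (ρ : Set V) := by
    ext x; simp
  rw [← e]
  by_cases hn : Nonempty ρ
  · exact hli.span_eq_top_of_card_eq_finrank (by rw [Fintype.card_coe, hc])
  · have h0 : ρ = ∅ := by
      rw [Finset.eq_empty_iff_forall_notMem]
      intro x hx
      exact hn ⟨⟨x, hx⟩⟩
    have h1 : finrank ℚ V = 0 := by rw [← hc, h0]; rfl
    have h2 : Subsingleton V := finrank_zero_iff.mp h1
    exact Subsingleton.elim _ _

lemma isB_of_span {ρ : Finset V} (hsp : span ℚ (ρ : Set V) = ⊤) (hc : ρ.card = finrank ℚ V) :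
    IsB ρ := by
  refine ⟨?_, hsp⟩
  apply linearIndependent_of_top_le_span_of_card_eq_finrank
  · have e : Set.range (fun v : ρ => (v : V)) = (ρ : Set V) := by
      ext x; simp
    rw [e, hsp]
  · rw [Fintype.card_coe, hc]

/-- extension of an independent subset of `B` to a basis inside `B` -/
lemma exists_basis_extend {B T : Finset V} (hB : span ℚ (B : Set V) = ⊤) (hT : T ⊆ B)
    (hli : LinearIndependent ℚ (fun v : T => (v : V))) : ∃ ρ, T ⊆ ρ ∧ ρ ⊆ B ∧ IsB ρ := by
  classical
  have hli' : LinearIndepOn ℚ id (T : Set V) := hli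
  obtain ⟨b, hTb, hbB, hsp, hb⟩ : ∃ b : Set V, (T : Set V) ⊆ b ∧ b ⊆ (B : Set V) ∧
      (B : Set V) ⊆ span ℚ b ∧ LinearIndepOn ℚ id b := by
    obtain ⟨b, h1, h2, h3, h4⟩ := exists_linearIndepOn_id_extension hli' (by exact_mod_cast hT)
    exact ⟨b, h2, h1, h3, h4⟩
  have hfin : b.Finite := B.finite_toSet.subset hbB
  refine ⟨hfin.toFinset, ?_, ?_, ?_, ?_⟩
  · intro x hx
    rw [Set.Finite.mem_toFinset]
    exact hTb hx
  · intro x hx
    rw [Set.Finite.mem_toFinset] at hx
    exact_mod_cast hbB hx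
  · have : LinearIndepOn ℚ id (hfin.toFinset : Set V) := by
      rw [Set.Finite.coe_toFinset]; exact hb
    exact this
  · rw [Set.Finite.coe_toFinset, eq_top_iff, ← hB]
    exact span_le.mpr hsp

/-- exchange -/
lemma exchange {ρ : Finset V} [DecidableEq V] (h : IsB ρ) {v b : V} (hv : v ∈ ρ)
    (hb : co ρ v b ≠ 0) : IsB (insert b (ρ.erase v)) := by
  have hvs : v ∈ span ℚ ((insert b (ρ.erase v) : Finset V) : Set V) := by
    have e := expand h b
    rw [← Finset.add_sum_erase ρ _ hv] at e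
    have e3 : co ρ v b • v = b - ∑ w ∈ ρ.erase v, co ρ w b • w := eq_sub_of_add_eq e
    have e2 : (co ρ v b)⁻¹ • (b - ∑ w ∈ ρ.erase v, co ρ w b • w) = v := by
      rw [← e3, smul_smul, inv_mul_cancel₀ hb, one_smul]
    generalize hT : (insert b (ρ.erase v) : Finset V) = T
    rw [← e2]
    subst hT
    apply smul_mem
    apply sub_mem
    · apply subset_span; simp
    · apply sum_mem
      intro w hw
      apply smul_mem
      apply subset_span
      simp only [coe_insert, Set.mem_insert_iff, mem_coe]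
      exact Or.inr hw
  have hsp : span ℚ ((insert b (ρ.erase v) : Finset V) : Set V) = ⊤ := by
    rw [eq_top_iff, ← h.2, span_le]
    intro w hw
    by_cases hwv : w = v
    · rw [hwv]; exact hvs
    · apply subset_span
      simp only [coe_insert, Set.mem_insert_iff, mem_coe]
      exact Or.inr (Finset.mem_erase.mpr ⟨hwv, hw⟩)
  apply isB_of_span hsp
  have hbn : b ∉ ρ.erase v := by
    intro hbm
    rw [Finset.mem_erase] at hbm
    exact hb (co_ne h hv hbm.2 hbm.1)
  rw [Finset.card_insert_of_notMem hbn, Finset.card_erase_of_mem hv, ← h.card]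
  have := Finset.card_pos.mpr ⟨v, hv⟩
  omega

/-- coordinates after an exchange: the new element -/
lemma co_exchange_new {ρ : Finset V} [DecidableEq V] (h : IsB ρ) {v b : V} (hv : v ∈ ρ)
    (hb : co ρ v b ≠ 0) (x : V) :
    co (insert b (ρ.erase v)) b x = co ρ v x / co ρ v b := by
  have h' := exchange h hv hb
  have hd : IsDual (insert b (ρ.erase v)) ((co ρ v b)⁻¹ • co ρ v) b := by
    refine ⟨Finset.mem_insert_self _ _, ?_, ?_⟩
    · rw [LinearMap.smul_apply, smul_eq_mul, inv_mul_cancel₀ hb]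
    · intro u hu hub
      rw [Finset.mem_insert, Finset.mem_erase] at hu
      rcases hu with hu | hu
      · exact absurd hu hub
      · rw [LinearMap.smul_apply, co_ne h hv hu.2 hu.1, smul_zero]
  rw [← hd.eq_co h', LinearMap.smul_apply, smul_eq_mul]
  field_simp

/-- coordinates after an exchange: the old elements -/
lemma co_exchange_old {ρ : Finset V} [DecidableEq V] (h : IsB ρ) {v b w : V} (hv : v ∈ ρ)
    (hb : co ρ v b ≠ 0) (hw : w ∈ ρ) (hwv : w ≠ v) (x : V) :
    co (insert b (ρ.erase v)) w x = co ρ w x - co ρ w b / co ρ v b * co ρ v x := by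
  have h' := exchange h hv hb
  have hbn : b ∉ ρ.erase v := by
    intro hbm
    rw [Finset.mem_erase] at hbm
    exact hb (co_ne h hv hbm.2 hbm.1)
  have hwm : w ∈ ρ.erase v := Finset.mem_erase.mpr ⟨hwv, hw⟩
  have hd : IsDual (insert b (ρ.erase v)) (co ρ w - (co ρ w b / co ρ v b) • co ρ v) w := by
    refine ⟨Finset.mem_insert_of_mem hwm, ?_, ?_⟩
    · rw [LinearMap.sub_apply, LinearMap.smul_apply, co_self h hw, co_ne h hv hw hwv, smul_zero,
        sub_zero]
    · intro u hu huw
      rw [Finset.mem_insert, Finset.mem_erase] at hu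
      rcases hu with hu | hu
      · rw [hu, LinearMap.sub_apply, LinearMap.smul_apply, smul_eq_mul]
        field_simp
        ring
      · rw [LinearMap.sub_apply, LinearMap.smul_apply, co_ne h hv hu.2 hu.1,
          co_ne h hw hu.2 huw, smul_zero, sub_zero]
  rw [← hd.eq_co h', LinearMap.sub_apply, LinearMap.smul_apply, smul_eq_mul]

/-- membership in the span of a subset of a basis -/
lemma mem_span_iff {ρ T : Finset V} (h : IsB ρ) (hT : T ⊆ ρ) (x : V) :
    x ∈ span ℚ (T : Set V) ↔ ∀ v ∈ ρ, v ∉ T → co ρ v x = 0 := by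
  classical
  constructor
  · intro hx v hv hvT
    induction hx using Submodule.span_induction with
    | mem u hu =>
      apply co_ne h hv (hT hu)
      rintro rfl
      exact hvT hu
    | zero => simp
    | add a b _ _ ha hb => rw [map_add, ha, hb, add_zero]
    | smul r a _ ha => rw [map_smul, ha, smul_zero]
  · intro hx
    rw [← expand h x]
    apply sum_mem
    intro v hv
    by_cases hvT : v ∈ T
    · exact smul_mem _ _ (subset_span hvT)
    · rw [hx v hv hvT, zero_smul]
      exact zero_mem _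

/-- subsets of a basis are independent -/
lemma IsB.sub_indep {ρ T : Finset V} (h : IsB ρ) (hT : T ⊆ ρ) :
    LinearIndependent ℚ (fun v : T => (v : V)) := by
  have h1 : LinearIndepOn ℚ id (ρ : Set V) := h.1
  exact h1.mono (by exact_mod_cast hT)

lemma IsB.finrank_sub {ρ T : Finset V} (h : IsB ρ) (hT : T ⊆ ρ) :
    finrank ℚ (span ℚ (T : Set V)) = T.card :=
  finrank_span_finset_eq_card (h.sub_indep hT)

/-- the data of Claim G -/
structure Sys (B : Finset V) (one : V) (C : Finset (Dual ℚ V)) : Prop where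
  sp : span ℚ (B : Set V) = ⊤
  gen : ∀ T : Finset V, T ⊆ B → one ∈ span ℚ (T : Set V) → span ℚ (T : Set V) = ⊤
  nat : ∀ c ∈ C, ∀ b ∈ B, ∃ m : ℕ, c b = m
  one : ∀ c ∈ C, c one = 1

/-- every basis of `V` inside `B` has a dual basis vector in `C` -/
def AllBad (B : Finset V) (C : Finset (Dual ℚ V)) : Prop :=
  ∀ ρ : Finset V, ρ ⊆ B → IsB ρ → ∃ c ∈ C, ∃ v, IsDual ρ c v

/-- minimal all-bad family -/
def Mini (B : Finset V) (C : Finset (Dual ℚ V)) : Prop :=
  AllBad B C ∧ ∀ C' : Finset (Dual ℚ V), C' ⊂ C → ¬ AllBad B C'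

/-- the elements of `B` in the support of some column of `J` -/
def PJ (B : Finset V) (J : Finset (Dual ℚ V)) : Set V := {b | b ∈ B ∧ ∃ c ∈ J, c b ≠ 0}

/-- a deficit -/
structure Deficit (B : Finset V) (J : Finset (Dual ℚ V)) : Prop where
  ne : J.Nonempty
  zo : ∀ c ∈ J, ∀ b ∈ B, c b = 0 ∨ c b = 1
  dj : ∀ c ∈ J, ∀ d ∈ J, c ≠ d → ∀ b ∈ B, c b = 0 ∨ d b = 0
  rk : finrank ℚ (span ℚ (PJ B J)) + 1 ≤ 2 * J.card

/-- `ρ` is a basis whose only bad column is `x`, with owner `a` -/
structure GG (B : Finset V) (C : Finset (Dual ℚ V)) (x : Dual ℚ V) (ρ : Finset V) (a : V) :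
    Prop where
  sub : ρ ⊆ B
  bas : IsB ρ
  mem : x ∈ C
  own : IsDual ρ x a
  only : ∀ c ∈ C, ∀ v, IsDual ρ c v → c = x

/-- support of a column in a finite set -/
noncomputable def PF (S : Finset V) (c : Dual ℚ V) : Finset V :=
  open Classical in S.filter (fun b => c b ≠ 0)

/-- union of the supports in a finite set -/
noncomputable def PJF (S : Finset V) (J : Finset (Dual ℚ V)) : Finset V :=
  open Classical in S.filter (fun b => ∃ c ∈ J, c b ≠ 0)

lemma mem_PF {S : Finset V} {c : Dual ℚ V} {b : V} : b ∈ PF S c ↔ b ∈ S ∧ c b ≠ 0 := by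
  classical
  unfold PF
  rw [Finset.mem_filter]

lemma mem_PJF {S : Finset V} {J : Finset (Dual ℚ V)} {b : V} :
    b ∈ PJF S J ↔ b ∈ S ∧ ∃ c ∈ J, c b ≠ 0 := by
  classical
  unfold PJF
  rw [Finset.mem_filter]

lemma coe_PJF (S : Finset V) (J : Finset (Dual ℚ V)) : (PJF S J : Set V) = PJ S J := by
  ext b
  rw [Finset.mem_coe, mem_PJF]
  rfl

/-- genericity: all coordinates of `one` are nonzero -/
lemma Sys.co_one_ne {B : Finset V} {one : V} {C : Finset (Dual ℚ V)} (hS : Sys B one C)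
    {ρ : Finset V} (hρB : ρ ⊆ B) (hρ : IsB ρ) {v : V} (hv : v ∈ ρ) : co ρ v one ≠ 0 := by
  classical
  intro h0
  have h1 : one ∈ span ℚ ((ρ.erase v : Finset V) : Set V) := by
    rw [mem_span_iff hρ (Finset.erase_subset _ _)]
    intro u hu hun
    rw [Finset.mem_erase, not_and] at hun
    have : u = v := by
      by_contra huv
      exact hun huv hu
    rw [this]; exact h0
  have h2 := hS.gen _ ((Finset.erase_subset _ _).trans hρB) h1
  have h3 : v ∈ span ℚ ((ρ.erase v : Finset V) : Set V) := by rw [h2]; trivial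
  rw [mem_span_iff hρ (Finset.erase_subset _ _)] at h3
  have h4 := h3 v hv (Finset.notMem_erase v ρ)
  rw [co_self hρ hv] at h4
  exact one_ne_zero h4

/-- ratio distinctness (P1) -/
lemma Sys.ratio {B : Finset V} {one : V} {C : Finset (Dual ℚ V)} (hS : Sys B one C)
    {ρ : Finset V} (hρB : ρ ⊆ B) (hρ : IsB ρ) {v w b : V} (hv : v ∈ ρ) (hw : w ∈ ρ) (hwv : w ≠ v)
    (hb : b ∈ B) (hbv : co ρ v b ≠ 0) : co ρ v one * co ρ w b ≠ co ρ w one * co ρ v b := by
  classical
  intro heq
  have h' := exchange hρ hv hbv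
  have hsub : insert b (ρ.erase v) ⊆ B :=
    Finset.insert_subset hb ((Finset.erase_subset _ _).trans hρB)
  have hwm : w ∈ insert b (ρ.erase v) :=
    Finset.mem_insert_of_mem (Finset.mem_erase.mpr ⟨hwv, hw⟩)
  have h1 := hS.co_one_ne hsub h' hwm
  rw [co_exchange_old hρ hv hbv hw hwv] at h1
  apply h1
  field_simp
  linarith

end Pool.Agent.Lib.ClG
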