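import Pool.Agent.Lib.ClG.Rado

set_option autoImplicit false
set_option linter.unusedSectionVars false

open Finset Submodule Module

namespace Pool.Agent.Lib.ClG

variable {V : Type*} [AddCommGroup V] [Module ℚ V] [FiniteDimensional ℚ V]

/-- JOB ClG-3 (Step 5). PROOF. Suppose that no nonempty `J ⊆ C` is a deficit of `B`: for all nonempty
`J ⊆ C` we have `2 * J.card ≤ finrank (span (PJ B J))`. Apply `rado` to `ι = C × Bool` and
`A (c, t) = PF B c`: for a finset `I` of `ι` let `J` be the image of the first projection,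
`I.card ≤ 2 * J.card ≤ finrank (span (PJ B J))` and `⋃ i ∈ I, A i = PJ B J`. We get an independent
`f : C × Bool → V` with `f (c, t) ∈ B`, `c (f (c, t)) ≠ 0`. Its image `T` (a finset) is an
independent subset of `B`; extend it to a basis `ρ ⊆ B` (`exists_basis_extend`). By `hA` some
`c ∈ C` is dual for `ρ`, with owner `v`; but `f (c, true) ≠ f (c, false)` are two elements of `ρ` on
which `c` does not vanish. Contradiction. -/
theorem disjoint_case {B : Finset V} {one : V} {C : Finset (Dual ℚ V)} (hS : Sys B one C)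
    (hA : AllBad B C) (zo : ∀ c ∈ C, ∀ b ∈ B, c b = 0 ∨ c b = 1)
    (dj : ∀ c ∈ C, ∀ d ∈ C, c ≠ d → ∀ b ∈ B, c b = 0 ∨ d b = 0) :
    ∃ J ⊆ C, Deficit B J := by
  classical
  by_contra hno
  have hJ : ∀ J : Finset (Dual ℚ V), J ⊆ C → J.Nonempty →
      2 * J.card ≤ finrank ℚ (span ℚ (PJ B J)) := by
    intro J hJC hJne
    by_contra hlt
    push Not at hlt
    exact hno ⟨J, hJC, hJne, fun c hc => zo c (hJC hc),
      fun c hc d hd => dj c (hJC hc) d (hJC hd), by omega⟩
  obtain ⟨f, hfA, hfli⟩ := rado (ι := {c // c ∈ C} × Bool) (fun i => PF B i.1.1) (by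
    intro I
    rcases I.eq_empty_or_nonempty with hI | hI
    · rw [hI]; simp
    · set J : Finset (Dual ℚ V) := I.image (fun i => i.1.1) with hJdef
      have hJC : J ⊆ C := by
        intro c hc
        rw [hJdef, Finset.mem_image] at hc
        obtain ⟨i, _, rfl⟩ := hc
        exact i.1.2
      have hJne : J.Nonempty := hI.image _
      have h1 : I.card ≤ 2 * J.card := by
        have h2 : I.card ≤ (J ×ˢ (Finset.univ : Finset Bool)).card := by
          apply Finset.card_le_card_of_injOn (fun i => (i.1.1, i.2))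
          · intro i hi
            rw [Finset.mem_coe, Finset.mem_product]
            exact ⟨Finset.mem_image_of_mem _ hi, Finset.mem_univ _⟩
          · intro i _ j _ hij
            simp only [Prod.mk.injEq] at hij
            exact Prod.ext (Subtype.ext hij.1) hij.2
        rw [Finset.card_product, Finset.card_univ, Fintype.card_bool] at h2
        omega
      refine h1.trans ((hJ J hJC hJne).trans (le_of_eq ?_))
      have hset : PJ B J = ⋃ i ∈ I, (PF B i.1.1 : Set V) := by
        ext b
        simp only [Set.mem_iUnion, Finset.mem_coe, mem_PF, exists_prop]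
        constructor
        · rintro ⟨hb, c, hc, hcb⟩
          rw [hJdef, Finset.mem_image] at hc
          obtain ⟨i, hi, rfl⟩ := hc
          exact ⟨i, hi, hb, hcb⟩
        · rintro ⟨i, hi, hb, hcb⟩
          exact ⟨hb, i.1.1, Finset.mem_image_of_mem _ hi, hcb⟩
      rw [hset])
  set T : Finset V := Finset.univ.image f with hT
  have hTB : T ⊆ B := by
    intro x hx
    rw [hT, Finset.mem_image] at hx
    obtain ⟨i, _, rfl⟩ := hx
    exact (mem_PF.mp (hfA i)).1
  have hTli : LinearIndependent ℚ (fun v : T => (v : V)) := by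
    have h1 := hfli.linearIndepOn_id
    have h2 : Set.range f = (T : Set V) := by
      rw [hT, Finset.coe_image, Finset.coe_univ, Set.image_univ]
    rw [h2] at h1
    exact h1
  obtain ⟨ρ, hTρ, hρB, hρ⟩ := exists_basis_extend hS.sp hTB hTli
  obtain ⟨c, hc, v, hd⟩ := hA ρ hρB hρ
  have hmem : ∀ t : Bool, f (⟨c, hc⟩, t) = v := by
    intro t
    by_contra hne
    have h1 : f (⟨c, hc⟩, t) ∈ ρ := hTρ (Finset.mem_image_of_mem _ (Finset.mem_univ _))
    have h2 := hd.2.2 _ h1 hne
    exact (mem_PF.mp (hfA (⟨c, hc⟩, t))).2 h2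
  have h3 : f (⟨c, hc⟩, true) = f (⟨c, hc⟩, false) := by rw [hmem, hmem]
  have h4 := hfli.injective h3
  simp at h4

end Pool.Agent.Lib.ClG
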