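import Pool.Agent.Lib.ClG.Basic

set_option autoImplicit false
set_option linter.unusedSectionVars false

open Finset Submodule Module

namespace Pool.Agent.Lib.ClG

variable {V : Type*} [AddCommGroup V] [Module ℚ V] [FiniteDimensional ℚ V]

/-- the supports are nonempty -/
private lemma easy_ne {ρ : Finset V} {one : V} {c : Dual ℚ V} (hone : c one = 1) (hρ : IsB ρ) :
    1 ≤ (PF ρ c).card := by
  rw [Nat.one_le_iff_ne_zero, Finset.card_ne_zero]
  by_contra hcon
  rw [Finset.not_nonempty_iff_eq_empty] at hcon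
  have h0 : c = 0 := by
    apply dual_ext hρ
    intro v hv
    by_contra hne
    have : v ∈ PF ρ c := mem_PF.mpr ⟨hv, by simpa using hne⟩
    rw [hcon] at this
    exact absurd this (Finset.notMem_empty v)
  rw [h0] at hone
  simp at hone

/-- one-element supports give dual basis vectors -/
private lemma easy_dual {B ρ : Finset V} {J : Finset (Dual ℚ V)} (hJ : Deficit B J) (hρB : ρ ⊆ B)
    {c : Dual ℚ V} (hc : c ∈ J) (h1 : (PF ρ c).card = 1) : ∃ v, IsDual ρ c v := by
  rw [Finset.card_eq_one] at h1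
  obtain ⟨v, hv⟩ := h1
  have hvm : v ∈ PF ρ c := by rw [hv]; exact Finset.mem_singleton_self v
  rw [mem_PF] at hvm
  refine ⟨v, hvm.1, ?_, ?_⟩
  · rcases hJ.zo c hc v (hρB hvm.1) with h | h
    · exact absurd h hvm.2
    · exact h
  · intro u hu huv
    by_contra hne
    have : u ∈ PF ρ c := mem_PF.mpr ⟨hu, hne⟩
    rw [hv, Finset.mem_singleton] at this
    exact huv this

/-- the union is disjoint -/
private lemma easy_card {B ρ : Finset V} {J : Finset (Dual ℚ V)} (hJ : Deficit B J)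
    (hρB : ρ ⊆ B) : (PJF ρ J).card = ∑ c ∈ J, (PF ρ c).card := by
  classical
  have e : PJF ρ J = J.biUnion (fun c => PF ρ c) := by
    ext b
    rw [mem_PJF, Finset.mem_biUnion]
    constructor
    · rintro ⟨hb, c, hc, hcb⟩
      exact ⟨c, hc, mem_PF.mpr ⟨hb, hcb⟩⟩
    · rintro ⟨c, hc, hcb⟩
      rw [mem_PF] at hcb
      exact ⟨hcb.1, c, hc, hcb.2⟩
  rw [e]
  apply Finset.card_biUnion
  intro c hc d hd hcd
  rw [Function.onFun, Finset.disjoint_left]
  intro b hbc hbd
  rw [mem_PF] at hbc hbd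
  rcases hJ.dj c hc d hd hcd b (hρB hbc.1) with h | h
  · exact hbc.2 h
  · exact hbd.2 h

/-- the span inclusion -/
private lemma easy_le {B ρ : Finset V} {J : Finset (Dual ℚ V)} (hρB : ρ ⊆ B) :
    span ℚ (PJF ρ J : Set V) ≤ span ℚ (PJ B J) := by
  apply span_mono
  intro b hb
  rw [Finset.mem_coe, mem_PJF] at hb
  exact ⟨hρB hb.1, hb.2⟩

/-- the cardinality bound -/
private lemma easy_bound {B ρ : Finset V} {J : Finset (Dual ℚ V)} (hJ : Deficit B J)
    (hρB : ρ ⊆ B) (hρ : IsB ρ) : (PJF ρ J).card + 1 ≤ 2 * J.card ∧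
      (PJF ρ J).card = finrank ℚ (span ℚ (PJF ρ J : Set V)) ∧
      finrank ℚ (span ℚ (PJF ρ J : Set V)) ≤ finrank ℚ (span ℚ (PJ B J)) := by
  have hsub : PJF ρ J ⊆ ρ := by
    intro b hb
    rw [mem_PJF] at hb
    exact hb.1
  have h1 := hρ.finrank_sub hsub
  have h2 : finrank ℚ (span ℚ (PJF ρ J : Set V)) ≤ finrank ℚ (span ℚ (PJ B J)) :=
    Submodule.finrank_mono (easy_le hρB)
  have h3 := hJ.rk
  exact ⟨by omega, h1.symm, h2⟩

/-- JOB ClG-1. PROOF (both theorems; prove `tight` from the same counting).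
For `c ∈ J` the set `PF ρ c` is nonempty: otherwise `c = 0` on `ρ`, so `c = 0` (`dual_ext`), but
`c one = 1`. If `PF ρ c = {v}`, then `c v = 1` (`hJ.zo`, `v ∈ ρ ⊆ B`, `c v ≠ 0`), so `IsDual ρ c v`.
`PJF ρ J` is the disjoint union of the `PF ρ c`, `c ∈ J` (`hJ.dj`), so its cardinality is the sum of
the cardinalities. `PJF ρ J ⊆ ρ` is independent (`IsB.finrank_sub`) and contained in `PJ B J`, so
`(PJF ρ J).card = finrank (span (PJF ρ J)) ≤ finrank (span (PJ B J)) ≤ 2 * J.card - 1`.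
`deficit_bad`: if no `c ∈ J` is dual, all `PF ρ c` have at least two elements, the sum is
`≥ 2 * J.card`, contradiction. -/
theorem deficit_bad {B ρ : Finset V} {one : V} {J : Finset (Dual ℚ V)}
    (hone : ∀ c ∈ J, c one = 1) (hJ : Deficit B J) (hρB : ρ ⊆ B) (hρ : IsB ρ) :
    ∃ c ∈ J, ∃ v, IsDual ρ c v := by
  classical
  by_contra hcon
  push Not at hcon
  have h2 : ∀ c ∈ J, 2 ≤ (PF ρ c).card := by
    intro c hc
    have h1 := easy_ne (hone c hc) hρ
    by_contra hlt
    obtain ⟨v, hv⟩ := easy_dual hJ hρB hc (by omega)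
    exact hcon c hc v hv
  have h3 := easy_card hJ hρB
  have h4 : J.card * 2 ≤ ∑ c ∈ J, (PF ρ c).card := by
    rw [← smul_eq_mul]
    exact Finset.card_nsmul_le_sum _ _ _ h2
  have h5 := (easy_bound hJ hρB hρ).1
  omega

/-- JOB ClG-1, second part. PROOF. All `c ∈ J`, `c ≠ x`, have `2 ≤ (PF ρ c).card`; if `x ∉ J` the sum
is `≥ 2 * J.card`, contradiction. So `x ∈ J`, and the sum is `≥ 1 + 2 (J.card - 1) = 2 * J.card - 1`;
so there is equality everywhere, in particular `finrank (span (PJF ρ J)) = finrank (span (PJ B J))`,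
so the two spans are equal (`Submodule.eq_of_le_of_finrank_le`), and `PJ B J ⊆ span (PJ B J)`. -/
theorem tight {B ρ : Finset V} {one : V} {J : Finset (Dual ℚ V)} {x : Dual ℚ V}
    (hone : ∀ c ∈ J, c one = 1) (hJ : Deficit B J) (hρB : ρ ⊆ B) (hρ : IsB ρ)
    (hx : ∀ c ∈ J, ∀ v, IsDual ρ c v → c = x) :
    x ∈ J ∧ (∀ c ∈ J, c ≠ x → (PF ρ c).card = 2) ∧ (PJF ρ J).card + 1 = 2 * J.card ∧
      PJ B J ⊆ (span ℚ (PJF ρ J : Set V) : Set V) := by
  classical
  have h2 : ∀ c ∈ J, c ≠ x → 2 ≤ (PF ρ c).card := by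
    intro c hc hcx
    have h1 := easy_ne (hone c hc) hρ
    by_contra hlt
    obtain ⟨v, hv⟩ := easy_dual hJ hρB hc (by omega)
    exact hcx (hx c hc v hv)
  have h3 := easy_card hJ hρB
  obtain ⟨h5, h6, h7⟩ := easy_bound hJ hρB hρ
  have hxJ : x ∈ J := by
    by_contra hxJ
    have h4 : J.card * 2 ≤ ∑ c ∈ J, (PF ρ c).card := by
      rw [← smul_eq_mul]
      apply Finset.card_nsmul_le_sum
      intro c hc
      apply h2 c hc
      rintro rfl
      exact hxJ hc
    omega
  have hpos := Finset.card_pos.mpr ⟨x, hxJ⟩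
  have hx1 := easy_ne (hone x hxJ) hρ
  have h8 : (PF ρ x).card + ∑ c ∈ J.erase x, (PF ρ c).card = ∑ c ∈ J, (PF ρ c).card :=
    Finset.add_sum_erase J (fun c => (PF ρ c).card) hxJ
  have h9 : (J.card - 1) * 2 ≤ ∑ c ∈ J.erase x, (PF ρ c).card := by
    rw [← smul_eq_mul, ← Finset.card_erase_of_mem hxJ]
    apply Finset.card_nsmul_le_sum
    intro c hc
    rw [Finset.mem_erase] at hc
    exact h2 c hc.2 hc.1
  have h10 : (PJF ρ J).card + 1 = 2 * J.card := by omega
  refine ⟨hxJ, ?_, h10, ?_⟩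
  · intro c hc hcx
    have hce : c ∈ J.erase x := Finset.mem_erase.mpr ⟨hcx, hc⟩
    have h11 : (PF ρ c).card + ∑ d ∈ (J.erase x).erase c, (PF ρ d).card =
        ∑ d ∈ J.erase x, (PF ρ d).card :=
      Finset.add_sum_erase (J.erase x) (fun d => (PF ρ d).card) hce
    have h12 : ((J.erase x).erase c).card * 2 ≤ ∑ d ∈ (J.erase x).erase c, (PF ρ d).card := by
      rw [← smul_eq_mul]
      apply Finset.card_nsmul_le_sum
      intro d hd
      rw [Finset.mem_erase, Finset.mem_erase] at hd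
      exact h2 d hd.2.2 hd.2.1
    rw [Finset.card_erase_of_mem hce, Finset.card_erase_of_mem hxJ] at h12
    have h13 := h2 c hc hcx
    have h14 : 0 < (J.erase x).card := Finset.card_pos.mpr ⟨c, hce⟩
    rw [Finset.card_erase_of_mem hxJ] at h14
    omega
  · have h15 : span ℚ (PJF ρ J : Set V) = span ℚ (PJ B J) := by
      apply Submodule.eq_of_le_of_finrank_le (easy_le hρB)
      have := hJ.rk
      omega
    rw [h15]
    exact subset_span

end Pool.Agent.Lib.ClG
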