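import Mathlib

set_option autoImplicit false

open Finset

namespace Pool.Agent.Lib.ClG

/-- JOB ClG-9. A finite configuration of affine functions `D_f(s,t) = g f + s * d f + t * d' f` on the
plane, `f ∈ U`; `O` is a set of triples ('lines') with `D_f + D_g + D_h = 1`.
PROOF. Write `det f g = d f * d' g - d g * d' f` (it is additive in `(d g, d' g)` and antisymmetric).
For `f ∈ U` let `N f = {g ∈ U : det f g ≠ 0}` and `O f = {T ∈ O : f ∈ T and T meets N f}`.
(1) If `T = {f, g, h} ∈ O f` with `det f g ≠ 0` then `det f h = - det f g ≠ 0` (`h3`: the `d`-sum and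
the `d'`-sum over `T` vanish, `det f f = 0`). So `T.erase f ⊆ N f`, and by `hcov`, `hint` the sets
`T.erase f`, `T ∈ O f`, are pairwise disjoint with union `N f`. Hence `(N f).card = 2 * (O f).card`
and, for all `s, t`: `∑ g ∈ N f, D_g = (O f).card * (1 - D_f)`; the same holds for the coefficients:
`∑_{N f} d = - (O f).card * d f`, `∑_{N f} d' = - (O f).card * d' f`,
`∑_{N f} g = (O f).card * (1 - g f)`.
(2) No two elements `f ≠ f'` of `U` have `det f f' = 0`: Both `(d, d')` are nonzero (`hnz`), so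
`(d f', d' f') = λ (d f, d' f)`, `λ ≠ 0`, and `N f = N f'`; so `(O f).card = (O f').card =: m`, `m ≠ 0`
because `N f` is nonempty (`hne`: if `det f p = det f q = 0` with `(d f, d' f) ≠ 0` then
`det p q = 0`). By (1) `d f = d f'`, `d' f = d' f'`, `g f = g f'`. Take `p ∈ N f`; solve
`D_f = D_p = 0` (`det f p ≠ 0`) for `(s, t)`; then `D_{f'} = D_f = 0` there, contradiction to `hgen`
(`f' ≠ f`; `f' ≠ p` as `det f f' = 0 ≠ det f p`).
(3) So `N f = U.erase f` for all `f ∈ U`; let `n = U.card`, `S = ∑_U d` and so on: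
`S - d f = - ((n - 1) / 2) * d f`, i.e. `(n - 3) * d f = - 2 * S`, and the same for `d'`. As
`n ≥ 4`, all `d f` are equal and all `d' f` are equal, so `det f g = 0` for all `f, g ∈ U`,
contradiction to `hne`. -/
theorem K2 {ι : Type*} [DecidableEq ι] (U : Finset ι) (O : Finset (Finset ι)) (d d' g : ι → ℚ)
    (h3 : ∀ T ∈ O, T ⊆ U ∧ T.card = 3 ∧ ∑ f ∈ T, d f = 0 ∧ ∑ f ∈ T, d' f = 0 ∧ ∑ f ∈ T, g f = 1)
    (hint : ∀ T ∈ O, ∀ T' ∈ O, ∀ p q, p ≠ q → p ∈ T → q ∈ T → p ∈ T' → q ∈ T' → T = T')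
    (hnz : ∀ f ∈ U, d f ≠ 0 ∨ d' f ≠ 0)
    (hcov : ∀ f ∈ U, ∀ p ∈ U, d f * d' p - d p * d' f ≠ 0 → ∃ T ∈ O, f ∈ T ∧ p ∈ T)
    (hgen : ∀ f ∈ U, ∀ p ∈ U, d f * d' p - d p * d' f ≠ 0 → ∀ q ∈ U, q ≠ f → q ≠ p →
      ∀ s t : ℚ, g f + s * d f + t * d' f = 0 → g p + s * d p + t * d' p = 0 →
        g q + s * d q + t * d' q ≠ 0)
    (hne : ∃ f ∈ U, ∃ p ∈ U, d f * d' p - d p * d' f ≠ 0) (hcard : 4 ≤ U.card) : False := by
  classical
  -- the three other points of a line
  have hline : ∀ T ∈ O, ∀ f ∈ T, ∀ p ∈ T, d f * d' p - d p * d' f ≠ 0 → ∀ h ∈ T, h ≠ f →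
      d f * d' h - d h * d' f ≠ 0 := by
    intro T hT f hf p hp hfp h hh hhf
    obtain ⟨_, hc, e1, e2, _⟩ := h3 T hT
    by_cases hhp : h = p
    · rw [hhp]; exact hfp
    have hpf : p ≠ f := by
      rintro rfl
      apply hfp
      ring
    have hTeq : ({f, p, h} : Finset ι) = T := by
      apply Finset.eq_of_subset_of_card_le
      · intro x hx
        simp only [Finset.mem_insert, Finset.mem_singleton] at hx
        rcases hx with rfl | rfl | rfl
        · exact hf
        · exact hp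
        · exact hh
      · rw [hc, Finset.card_eq_three.mpr ⟨f, p, h, hpf.symm, hhf.symm, fun e => hhp e.symm, rfl⟩]
    rw [← hTeq] at e1 e2
    rw [Finset.sum_insert (by simp [hpf.symm, hhf.symm]),
      Finset.sum_insert (by simp only [Finset.mem_singleton]; exact fun e => hhp e.symm),
      Finset.sum_singleton] at e1 e2
    have e3 : d h = - d f - d p := by linarith
    have e4 : d' h = - d' f - d' p := by linarith
    rw [e3, e4]
    intro h0
    apply hfp
    linarith
  -- the star of `f`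
  let N : ι → Finset ι := fun f => U.filter fun p => d f * d' p - d p * d' f ≠ 0
  let Of : ι → Finset (Finset ι) := fun f => O.filter fun T => f ∈ T ∧ ∃ p ∈ T, d f * d' p - d p * d' f ≠ 0
  have hN : ∀ f ∈ U, N f = (Of f).biUnion fun T => T.erase f := by
    intro f hf
    ext p
    simp only [N, Of, Finset.mem_filter, Finset.mem_biUnion, Finset.mem_erase]
    constructor
    · rintro ⟨hp, hfp⟩
      obtain ⟨T, hT, hfT, hpT⟩ := hcov f hf p hp hfp
      refine ⟨T, ⟨hT, hfT, p, hpT, hfp⟩, ?_, hpT⟩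
      rintro rfl
      apply hfp
      ring
    · rintro ⟨T, ⟨hT, hfT, q, hqT, hfq⟩, hpf, hpT⟩
      exact ⟨(h3 T hT).1 hpT, hline T hT f hfT q hqT hfq p hpT hpf⟩
  have hdisj : ∀ f, (↑(Of f) : Set (Finset ι)).PairwiseDisjoint fun T => T.erase f := by
    intro f T hT T' hT' hne'
    rw [Finset.mem_coe, Finset.mem_filter] at hT hT'
    rw [Function.onFun, Finset.disjoint_left]
    intro p hp hp'
    rw [Finset.mem_erase] at hp hp'
    exact hne' (hint T hT.1 T' hT'.1 f p hp.1.symm hT.2.1 hp.2 hT'.2.1 hp'.2)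
  have hNcard : ∀ f ∈ U, (N f).card = 2 * (Of f).card := by
    intro f hf
    rw [hN f hf, Finset.card_biUnion (fun T hT T' hT' h => hdisj f hT hT' h)]
    have : ∀ T ∈ Of f, (T.erase f).card = 2 := by
      intro T hT
      rw [Finset.mem_filter] at hT
      rw [Finset.card_erase_of_mem hT.2.1, (h3 T hT.1).2.1]
    rw [Finset.sum_congr rfl this, Finset.sum_const, smul_eq_mul, mul_comm]
  have hNsum : ∀ (φ : ι → ℚ) (c : ℚ), (∀ T ∈ O, ∑ f ∈ T, φ f = c) → ∀ f ∈ U,
      ∑ p ∈ N f, φ p = (Of f).card * (c - φ f) := by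
    intro φ c hφ f hf
    rw [hN f hf, Finset.sum_biUnion (hdisj f)]
    have : ∀ T ∈ Of f, ∑ p ∈ T.erase f, φ p = c - φ f := by
      intro T hT
      rw [Finset.mem_filter] at hT
      rw [← hφ T hT.1, ← Finset.add_sum_erase T φ hT.2.1]
      ring
    rw [Finset.sum_congr rfl this, Finset.sum_const, nsmul_eq_mul]
  have hd0 : ∀ T ∈ O, ∑ f ∈ T, d f = 0 := fun T hT => (h3 T hT).2.2.1
  have hd'0 : ∀ T ∈ O, ∑ f ∈ T, d' f = 0 := fun T hT => (h3 T hT).2.2.2.1
  have hg1 : ∀ T ∈ O, ∑ f ∈ T, g f = 1 := fun T hT => (h3 T hT).2.2.2.2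
  -- the plane identity
  have hplane : ∀ u ∈ U, ∀ v w : ι, d u * d' v - d v * d' u = 0 → d u * d' w - d w * d' u = 0 →
      d v * d' w - d w * d' v = 0 := by
    intro u hu v w h1 h2
    have e1 : (d v * d' w - d w * d' v) * d u = 0 := by
      linear_combination d v * h2 - d w * h1
    have e2 : (d v * d' w - d w * d' v) * d' u = 0 := by
      linear_combination d' v * h2 - d' w * h1
    rcases hnz u hu with h | h
    · exact (mul_eq_zero.mp e1).resolve_right h
    · exact (mul_eq_zero.mp e2).resolve_right h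
  have hexist : ∀ f ∈ U, ∃ p ∈ U, d f * d' p - d p * d' f ≠ 0 := by
    intro f hf
    obtain ⟨a, ha, b, hb, hab⟩ := hne
    by_contra hcon
    push Not at hcon
    exact hab (hplane f hf a b (hcon a ha) (hcon b hb))
  have hfrac : ∀ D x y u v w : ℚ, D ≠ 0 → u * D + x * v + y * w = 0 →
      u + x / D * v + y / D * w = 0 := by
    intro D x y u v w hD h
    have e : u + x / D * v + y / D * w = (u * D + x * v + y * w) / D := by
      field_simp
    rw [e, h, zero_div]
  -- (2) distinct elements are not parallel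
  have hpar : ∀ f ∈ U, ∀ f' ∈ U, f ≠ f' → d f * d' f' - d f' * d' f ≠ 0 := by
    intro f hf f' hf' hff h0
    have hNN : N f = N f' := by
      ext p
      simp only [N, Finset.mem_filter]
      have e : (d f * d' p - d p * d' f ≠ 0) ↔ (d f' * d' p - d p * d' f' ≠ 0) := by
        rw [not_iff_not]
        constructor
        · intro h1
          exact hplane f hf f' p h0 h1
        · intro h1
          refine hplane f' hf' f p ?_ h1
          linarith
      rw [e]
    obtain ⟨p, hp, hfp⟩ := hexist f hf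
    have hpN : p ∈ N f := Finset.mem_filter.mpr ⟨hp, hfp⟩
    have hm : (Of f).card = (Of f').card := by
      have h1 := hNcard f hf
      have h2 := hNcard f' hf'
      rw [hNN] at h1
      omega
    have hm0 : ((Of f).card : ℚ) ≠ 0 := by
      have h1 := hNcard f hf
      have h2 := Finset.card_pos.mpr ⟨p, hpN⟩
      have h3' : (Of f).card ≠ 0 := by omega
      exact_mod_cast h3'
    have heq : ∀ (φ : ι → ℚ) (c : ℚ), (∀ T ∈ O, ∑ f ∈ T, φ f = c) → φ f = φ f' := by
      intro φ c hφ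
      have h1 := hNsum φ c hφ f hf
      have h2 := hNsum φ c hφ f' hf'
      rw [← hNN, h1, ← hm] at h2
      have h4 := mul_left_cancel₀ hm0 h2
      linarith
    have hdf := heq d 0 hd0
    have hd'f := heq d' 0 hd'0
    have hgf := heq g 1 hg1
    have hf'p : f' ≠ p := by
      rintro rfl
      exact hfp h0
    refine hgen f hf p hp hfp f' hf' hff.symm hf'p
      ((g p * d' f - g f * d' p) / (d f * d' p - d p * d' f))
      ((d p * g f - d f * g p) / (d f * d' p - d p * d' f)) ?_ ?_ ?_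
    · exact hfrac _ _ _ _ _ _ hfp (by ring)
    · exact hfrac _ _ _ _ _ _ hfp (by ring)
    · rw [← hdf, ← hd'f, ← hgf]
      exact hfrac _ _ _ _ _ _ hfp (by ring)
  -- (3)
  have hNe : ∀ f ∈ U, N f = U.erase f := by
    intro f hf
    ext p
    simp only [N, Finset.mem_filter, Finset.mem_erase]
    constructor
    · rintro ⟨hp, hfp⟩
      refine ⟨?_, hp⟩
      rintro rfl
      apply hfp
      ring
    · rintro ⟨hpf, hp⟩
      exact ⟨hp, hpar f hf p hp hpf.symm⟩
  have hall : ∀ (φ : ι → ℚ), (∀ T ∈ O, ∑ f ∈ T, φ f = 0) → ∀ f ∈ U,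
      ((U.card : ℚ) - 3) * φ f = - 2 * ∑ p ∈ U, φ p := by
    intro φ hφ f hf
    have h1 := hNsum φ 0 hφ f hf
    have h2 := hNcard f hf
    rw [hNe f hf] at h1 h2
    rw [Finset.card_erase_of_mem hf] at h2
    have h4 : ((U.card : ℚ)) = 2 * (Of f).card + 1 := by
      have : U.card = 2 * (Of f).card + 1 := by omega
      exact_mod_cast this
    have h5 := Finset.add_sum_erase U φ hf
    rw [h4, ← h5, h1]
    ring
  obtain ⟨a, ha, b, hb, hab⟩ := hne
  have hc : ((U.card : ℚ) - 3) ≠ 0 := by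
    have : (4 : ℚ) ≤ U.card := by exact_mod_cast hcard
    intro h
    linarith
  have hda : d a = d b := by
    have h1 := hall d hd0 a ha
    have h2 := hall d hd0 b hb
    exact mul_left_cancel₀ hc (h1.trans h2.symm)
  have hda' : d' a = d' b := by
    have h1 := hall d' hd'0 a ha
    have h2 := hall d' hd'0 b hb
    exact mul_left_cancel₀ hc (h1.trans h2.symm)
  apply hab
  rw [hda, hda']
  ring

end Pool.Agent.Lib.ClG
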