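import Pool.Agent.Lib.ClG.Basic

set_option autoImplicit false
set_option linter.unusedSectionVars false

open Finset Submodule Module

namespace Pool.Agent.Lib.ClG

variable {V : Type*} [AddCommGroup V] [Module ℚ V] [FiniteDimensional ℚ V]

/-- auxiliary: the elements which are tied to another one -/
private def step1_tied (ρ : Finset V) (b one v : V) : Prop :=
  ∃ u ∈ ρ, u ≠ v ∧ co ρ u b + co ρ v b = 0 ∧ co ρ u one + co ρ v one = 1

/-- JOB ClG-4 (Step 1). Notation: `β v = co ρ v b`, `γ v = co ρ v one`. `x = co ρ a`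
(`IsDual.eq_co`), so `β a = x b`, `γ a = x one = 1`.
PROOF. If `b ∈ ρ` this is `IsDual`. Let `b ∉ ρ`, and suppose `x b ≠ 0`; by `hS.nat`
`x b` is a natural number `≥ 1`, so `1 ≤ β a`. We show `x b = 1`.
Say that `v ∈ ρ` is tied if there are `u ∈ ρ`, `u ≠ v`, and `c ∈ C` with `c u = 1`, `c v = 1`,
`c w = 0` for the other `w ∈ ρ`, and `c b = 0`. Then `β u + β v = 0` and `γ u + γ v = 1`
(`two_term` at `b` and at `one`).
* `a` is not tied: else `γ u = 0`, contradiction to `hS.co_one_ne`.
Take `v` with maximal `|β v|` among the `v ∈ ρ` that are not tied and satisfy `β v ≠ 0` (the set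
contains `a`, so `1 ≤ β a ≤ |β v|`). `ρ' = insert b (ρ.erase v)` is a basis (`exchange`) contained in
`B`, so by `hA` there are `c ∈ C` and `o` with `IsDual ρ' c o`. Let `c v = K` (a natural number).
* (A) `o = b`: `c` vanishes on `ρ.erase v`, `1 = c b = β v * K`, `1 = c one = γ v * K` (`one_term`).
  `K = 1`: then `IsDual ρ c v`, so `c = x` (`hG.only`), so `v = a` (`x v = 1 ≠ 0`) and
  `x b = β v = 1`. `K = 0` is impossible. `K ≥ 2`: `β v = 1 / K < 1 ≤ |β v|`, contradiction.
* (B) `o = u ∈ ρ`, `u ≠ v`, `c u = 1`, `c b = 0`, `c = 0` on the other elements of `ρ`.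
  `two_term`: `0 = β u + K β v`, `1 = γ u + K γ v`. `K = 0`: `IsDual ρ c u`, so `c = x`, `u = a`,
  `β a = 0`, contradiction. `K = 1`: `v` is tied, contradiction. `K ≥ 2`: `β u ≠ 0` and
  `|β u| = K |β v| > |β v|`, so by maximality `u` is tied: there are `u' ∈ ρ`, `u' ≠ u`, `c'` with
  `β u' = - β u = K β v` and `γ u' = 1 - γ u = K γ v`. `u' ≠ v` (as `β v ≠ 0`, `K ≠ 1`). This
  contradicts `hS.ratio` for `v` and `w = u'`: `γ v * β u' = γ u' * β v`. -/
theorem step1 {B : Finset V} {one : V} {C : Finset (Dual ℚ V)} (hS : Sys B one C)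
    (hA : AllBad B C) {x : Dual ℚ V} {ρ : Finset V} {a b : V} (hG : GG B C x ρ a) (hb : b ∈ B) :
    x b = 0 ∨ x b = 1 := by
  classical
  have hxC := hG.mem
  have hρ := hG.bas
  have haρ : a ∈ ρ := hG.own.1
  have hxco : x = co ρ a := hG.own.eq_co hρ
  by_cases hx0 : x b = 0
  · exact Or.inl hx0
  right
  obtain ⟨m, hm⟩ := hS.nat x hxC b hb
  have hm1 : 1 ≤ m := by
    rcases Nat.eq_zero_or_pos m with h | h
    · exfalso
      apply hx0
      rw [hm, h]
      simp
    · exact h
  have hβa : co ρ a b = m := by rw [← hxco]; exact hm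
  have hγa : co ρ a one = 1 := by rw [← hxco]; exact hS.one x hxC
  have hβa1 : (1 : ℚ) ≤ co ρ a b := by rw [hβa]; exact_mod_cast hm1
  have hanot : ¬ step1_tied ρ b one a := by
    rintro ⟨u, hu, hua, h1, h2⟩
    apply hS.co_one_ne hG.sub hρ hu
    linarith
  have haF : a ∈ ρ.filter (fun v => co ρ v b ≠ 0 ∧ ¬ step1_tied ρ b one v) := by
    rw [Finset.mem_filter]
    exact ⟨haρ, by intro h; rw [h] at hβa1; norm_num at hβa1, hanot⟩
  obtain ⟨v, hvF, hmax⟩ := Finset.exists_max_image
    (ρ.filter (fun v => co ρ v b ≠ 0 ∧ ¬ step1_tied ρ b one v)) (fun v => |co ρ v b|) ⟨a, haF⟩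
  rw [Finset.mem_filter] at hvF
  obtain ⟨hv, hbv, hvt⟩ := hvF
  have hav : (1 : ℚ) ≤ |co ρ v b| := by
    have h1 := hmax a haF
    have h2 := le_abs_self (co ρ a b)
    linarith
  have hbne : ∀ w ∈ ρ, w ≠ v → w ≠ b := by
    rintro w hw hwv rfl
    exact hbv (co_ne hρ hv hw hwv)
  have hsub : insert b (ρ.erase v) ⊆ B :=
    Finset.insert_subset hb ((Finset.erase_subset _ _).trans hG.sub)
  obtain ⟨c, hc, o, ho⟩ := hA _ hsub (exchange hρ hv hbv)
  obtain ⟨K, hK⟩ := hS.nat c hc v (hG.sub hv)
  have hc1 := hS.one c hc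
  by_cases hob : o = b
  · -- case A
    subst hob
    have h0 : ∀ w ∈ ρ, w ≠ v → c w = 0 := fun w hw hwv =>
      ho.2.2 w (Finset.mem_insert_of_mem (Finset.mem_erase.mpr ⟨hwv, hw⟩)) (hbne w hw hwv)
    have e1 := one_term hρ hv h0 o
    rw [ho.2.1, hK] at e1
    rcases Nat.lt_or_ge K 2 with hK2 | hK2
    · interval_cases K
      · simp at e1
      · have : c = x := hG.only c hc v ⟨hv, by rw [hK]; simp, h0⟩
        rw [← this]
        exact ho.2.1
    · exfalso
      have hK2' : (2 : ℚ) ≤ K := by exact_mod_cast hK2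
      have e2 : |co ρ v o| * K = 1 := by
        have e3 : |co ρ v o * K| = 1 := by rw [← e1]; simp
        rwa [abs_mul, abs_of_nonneg (by linarith : (0 : ℚ) ≤ K)] at e3
      nlinarith
  · -- case B
    have hom := ho.1
    rw [Finset.mem_insert, Finset.mem_erase] at hom
    rcases hom with hom | ⟨hov, hoρ⟩
    · exact absurd hom hob
    have hcb : c b = 0 := ho.2.2 b (Finset.mem_insert_self _ _) (fun h => hob h.symm)
    have h0 : ∀ w ∈ ρ, w ≠ o → w ≠ v → c w = 0 := fun w hw hwo hwv =>
      ho.2.2 w (Finset.mem_insert_of_mem (Finset.mem_erase.mpr ⟨hwv, hw⟩)) hwo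
    have e1 := two_term hρ hoρ hv hov h0 b
    have e2 := two_term hρ hoρ hv hov h0 one
    rw [hcb, ho.2.1, hK] at e1
    rw [hc1, ho.2.1, hK] at e2
    rcases Nat.lt_or_ge K 2 with hK2 | hK2
    · interval_cases K
      · have : c = x := by
          refine hG.only c hc o ⟨hoρ, ho.2.1, ?_⟩
          intro w hw hwo
          by_cases hwv : w = v
          · rw [hwv, hK]; simp
          · exact h0 w hw hwo hwv
        exfalso
        apply hx0
        rw [← this]
        exact hcb
      · exfalso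
        apply hvt
        refine ⟨o, hoρ, hov, ?_, ?_⟩
        · push_cast at e1
          linarith
        · push_cast at e2
          linarith
    · exfalso
      have hK2' : (2 : ℚ) ≤ K := by exact_mod_cast hK2
      have hβo : co ρ o b = - (K * co ρ v b) := by linarith
      have hKpos : (0 : ℚ) < K := by linarith
      have habs : |co ρ o b| = K * |co ρ v b| := by
        rw [hβo, abs_neg, abs_mul, abs_of_pos hKpos]
      have hone : co ρ o b ≠ 0 := by
        intro h
        rw [h, abs_zero] at habs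
        nlinarith
      have hot : step1_tied ρ b one o := by
        by_contra hnt
        have h1 := hmax o (by rw [Finset.mem_filter]; exact ⟨hoρ, hone, hnt⟩)
        rw [habs] at h1
        nlinarith
      obtain ⟨u, hu, huo, h1, h2⟩ := hot
      have hβu : co ρ u b = K * co ρ v b := by linarith
      have hγu : co ρ u one = K * co ρ v one := by linarith
      have huv : u ≠ v := by
        rintro rfl
        have h3 : (K - 1 : ℚ) * co ρ u b = 0 := by linarith
        rcases mul_eq_zero.mp h3 with h4 | h4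
        · linarith
        · exact hbv h4
      apply hS.ratio hG.sub hρ hv hu huv hb hbv
      rw [hβu, hγu]
      ring

end Pool.Agent.Lib.ClG
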