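import Pool.Agent.Lib.ClG.Star

set_option autoImplicit false
set_option linter.unusedSectionVars false

open Finset Submodule Module

namespace Pool.Agent.Lib.ClG

variable {V : Type*} [AddCommGroup V] [Module ℚ V] [FiniteDimensional ℚ V] [DecidableEq V]

/-- the coordinates of `b₁` at `u` and `v` vanish -/
private theorem s4e_aux {B : Finset V} {one : V} {C : Finset (Dual ℚ V)} (hC : Ctx B one C)
    {x y : Dual ℚ V} (hx : x ∈ C) (hy : y ∈ C) {e : V} (he : e ∈ B)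
    (hxe : x e ≠ 0) {ρ : Finset V} {a : V} (hG : GG B C x ρ a)
    (heρ : e ∉ ρ) {b₁ u v : V} (hb₁B : b₁ ∈ B) (hb₁ : b₁ ∉ ρ) (hb₁e : b₁ ≠ e)
    (hu : u ∈ ρ) (hv : v ∈ ρ) (huv : u ≠ v) (hua : u ≠ a)
    (hxb₁ : x b₁ ≠ 0)
    (hY : ∀ b ∈ B, y b ≠ 0 ↔ b = u ∨ b = v ∨ b = e) {f : V} (hfρ : f ∉ ρ)
    (hfe : f ≠ e) (hfb : f ≠ b₁) {Jf : Finset (Dual ℚ V)} (hJf : JE B C f Jf) (hyJf : y ∉ Jf)
    (hue : co ρ u e ≠ 0) : co ρ u b₁ = 0 ∧ co ρ v b₁ = 0 := by
  obtain ⟨hxJf, hcard2, _, hspan⟩ := hC.tight hJf hG hfρ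
  have haρ : a ∈ ρ := hG.own.1
  have hxa : x a = 1 := hG.own.2.1
  have huB : u ∈ B := hG.sub hu
  have hvB : v ∈ B := hG.sub hv
  have hfu : f ≠ u := by rintro rfl; exact hfρ hu
  have hfa : f ≠ a := by rintro rfl; exact hfρ haρ
  have heJ : e ∈ PJ (B.erase f) Jf := ⟨Finset.mem_erase.mpr ⟨hfe.symm, he⟩, x, hxJf, hxe⟩
  have hesp : e ∈ span ℚ (PJF ρ Jf : Set V) := hspan heJ
  have hsub : PJF ρ Jf ⊆ ρ := fun b hb => (mem_PJF.mp hb).1
  have huP : u ∈ PJF ρ Jf := by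
    by_contra hnu
    exact hue ((mem_span_iff hG.bas hsub e).mp hesp u hu hnu)
  obtain ⟨_, c, hcJ, hcu⟩ := mem_PJF.mp huP
  have hcx : c ≠ x := by
    rintro rfl
    exact hcu (hG.own.2.2 u hu hua)
  have hcy : c ≠ y := by
    rintro rfl
    exact hyJf hcJ
  have hcC : c ∈ C := hJf.sub hcJ
  have hca : c a = 0 := by
    rcases hJf.dfc.dj x hxJf c hcJ hcx.symm a (Finset.mem_erase.mpr ⟨hfa.symm, hG.sub haρ⟩) with h | h
    · rw [hxa] at h; exact absurd h one_ne_zero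
    · exact h
  have hcb : c b₁ = 0 := by
    rcases hJf.dfc.dj x hxJf c hcJ hcx.symm b₁ (Finset.mem_erase.mpr ⟨hfb.symm, hb₁B⟩) with h | h
    · exact absurd h hxb₁
    · exact h
  have hyu : y u ≠ 0 := (hY u huB).mpr (Or.inl rfl)
  have hyv : y v ≠ 0 := (hY v hvB).mpr (Or.inr (Or.inl rfl))
  have hcv : c v = 0 := by
    by_contra h
    exact huv (hC.inter hcC hy hcy huB hcu hyu hvB h hyv).symm
  have h2 := hcard2 c hcJ hcx
  obtain ⟨w, hwρ, hwu, hcw, hPF⟩ : ∃ w, w ∈ ρ ∧ w ≠ u ∧ c w ≠ 0 ∧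
      ∀ b ∈ ρ, c b ≠ 0 → b = u ∨ b = w := by
    have huPF : u ∈ PF ρ c := mem_PF.mpr ⟨hu, hcu⟩
    have h1 : ((PF ρ c).erase u).card = 1 := by
      rw [Finset.card_erase_of_mem huPF, h2]
    obtain ⟨w, hw⟩ := Finset.card_eq_one.mp h1
    have hw1 : w ∈ (PF ρ c).erase u := by rw [hw]; exact Finset.mem_singleton_self w
    rw [Finset.mem_erase, mem_PF] at hw1
    refine ⟨w, hw1.2.1, hw1.1, hw1.2.2, ?_⟩
    intro b hb hcb'
    by_cases hbu : b = u
    · exact Or.inl hbu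
    · right
      have : b ∈ (PF ρ c).erase u := Finset.mem_erase.mpr ⟨hbu, mem_PF.mpr ⟨hb, hcb'⟩⟩
      rw [hw] at this
      exact Finset.mem_singleton.mp this
  have hwv : w ≠ v := by rintro rfl; exact hcw hcv
  set ρ₂ : Finset V := ((ρ.erase u).erase v).erase w with hρ₂
  have hρ₂sub : ρ₂ ⊆ ρ := by
    rw [hρ₂]
    exact (Finset.erase_subset _ _).trans ((Finset.erase_subset _ _).trans (Finset.erase_subset _ _))
  have hρ₂card : ρ₂.card + 3 = finrank ℚ V := by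
    rw [← hG.bas.card, hρ₂]
    have e1 : v ∈ ρ.erase u := Finset.mem_erase.mpr ⟨huv.symm, hv⟩
    have e2 : w ∈ (ρ.erase u).erase v :=
      Finset.mem_erase.mpr ⟨hwv, Finset.mem_erase.mpr ⟨hwu, hwρ⟩⟩
    have c1 := Finset.card_erase_add_one hu
    have c2 := Finset.card_erase_add_one e1
    have c3 := Finset.card_erase_add_one e2
    omega
  have hT := hC.star_rank hcC hy hcy huB hcu hyu (insert b₁ (ρ₂ : Set V)) (by
    intro b hb
    rw [Set.mem_insert_iff, Finset.mem_coe] at hb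
    rcases hb with rfl | hb
    · refine ⟨hb₁B, hcb, ?_⟩
      by_contra h
      rcases (hY b hb₁B).mp h with h | h | h
      · exact hb₁ (h ▸ hu)
      · exact hb₁ (h ▸ hv)
      · exact hb₁e h
    · rw [hρ₂, Finset.mem_erase, Finset.mem_erase, Finset.mem_erase] at hb
      obtain ⟨hbw, hbv, hbu, hbρ⟩ := hb
      refine ⟨hG.sub hbρ, ?_, ?_⟩
      · by_contra h
        rcases hPF b hbρ h with h | h
        · exact hbu h
        · exact hbw h
      · by_contra h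
        rcases (hY b (hG.sub hbρ)).mp h with h | h | h
        · exact hbu h
        · exact hbv h
        · exact heρ (h ▸ hbρ))
  have hle : span ℚ (ρ₂ : Set V) ≤ span ℚ (insert b₁ (ρ₂ : Set V)) :=
    span_mono (Set.subset_insert _ _)
  have hfr := hG.bas.finrank_sub hρ₂sub
  have heq : span ℚ (ρ₂ : Set V) = span ℚ (insert b₁ (ρ₂ : Set V)) := by
    apply Submodule.eq_of_le_of_finrank_le hle
    rw [hfr]
    omega
  have hb₁sp : b₁ ∈ span ℚ (ρ₂ : Set V) := by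
    rw [heq]
    exact subset_span (Set.mem_insert _ _)
  rw [mem_span_iff hG.bas hρ₂sub] at hb₁sp
  refine ⟨hb₁sp u hu ?_, hb₁sp v hv ?_⟩
  · rw [hρ₂, Finset.mem_erase, Finset.mem_erase, Finset.mem_erase]
    rintro ⟨_, _, h, _⟩
    exact h rfl
  · rw [hρ₂, Finset.mem_erase, Finset.mem_erase, Finset.mem_erase]
    rintro ⟨_, h, _, _⟩
    exact h rfl

/-- JOB ClG-8 (4e). The main step. PROOF. Take `ρ, a` with `GG B C x ρ a`, `e ∉ ρ`
(`Ctx.noncoloop`, `Ctx.avoid`), and `b₁ u v` from `Ctx.shape`. Suppose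
`finrank V + 3 ≤ B.card`; `ρ.card = finrank V`, so there is `f ∈ B`, `f ∉ ρ`, `f ≠ e`, `f ≠ b₁`. Let
`Je` be from `Ctx.je` at `e` and `Jf` from `Ctx.je` at `f` (`B.erase f ⊇ ρ` spans).
* `x, y ∈ Je` (`Ctx.mem_JE`); `x ∈ Jf` (`Ctx.tight` at `f`); `y ∉ Jf` (otherwise `dj` at
  `e ∈ B.erase f`).
* `e ∈ PJ (B.erase f) Jf` (`x e ≠ 0`), so `e ∈ span (PJF ρ Jf)` (tightness).
* `1 = y e = co ρ u e * y u + co ρ v e * y v = co ρ u e + co ρ v e` (`two_term`, `zo`). So
  `co ρ u e ≠ 0` or `co ρ v e ≠ 0`; the situation is symmetric in `u, v` (prove the rest as a lemma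
  for `u` and apply it twice). Say `co ρ u e ≠ 0`. By `mem_span_iff` `u ∈ PJF ρ Jf`: there is
  `c ∈ Jf` with `c u ≠ 0`. `c ≠ x` (`x u = 0`), `c ≠ y` (`y ∉ Jf`), `c ∈ C`.
* `c a = 0`, `c b₁ = 0`, `c e = 0` (`dj` for `x, c ∈ Jf` on `B.erase f`; `a, b₁, e ≠ f`). `c v = 0`
  (`Ctx.inter` for `c, y` at `u`: otherwise `v = u`). `(PF ρ c).card = 2` (tightness), so
  `PF ρ c = {u, w}`, with `w ≠ u, v, a`.
* The set `T = insert b₁ (((ρ.erase u).erase v).erase w)` satisfies `c = y = 0` on `T`, so by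
  `Ctx.star_rank` for `c, y` at `u`: `finrank (span T) + 3 ≤ finrank V`; as
  `((ρ.erase u).erase v).erase w` is independent of cardinality `finrank V - 3`,
  `b₁ ∈ span (((ρ.erase u).erase v).erase w)` and therefore `co ρ u b₁ = 0`, `co ρ v b₁ = 0`.
* All `b ∈ B`, `b ∉ ρ`, `b ≠ e` have `co ρ u b = co ρ v b = 0` (`b = b₁`, or `Ctx.star`).
* `J' = Je.erase y` is a deficit for `B.erase e`: it contains `x`; `zo`, `dj` are inherited. Rank:
  `PJF ρ J' = PJF ρ Je \ PF ρ y` (disjointness), `PF ρ y = {u, v}`, so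
  `(PJF ρ J').card = (PJF ρ Je).card - 2 = 2 * J'.card - 1`, and `PJ (B.erase e) J' ⊆
  span (PJF ρ J')`: let `b` be in the left side; if `b ∈ ρ` it is clear; otherwise `b ∈ span (PJF ρ Je)`
  (tightness at `e`) and the coordinates at `u, v` vanish; `mem_span_iff` twice.
  So `finrank (span (PJ (B.erase e) J')) + 1 ≤ 2 * J'.card`.
* By `deficit_bad` `J'` is all-bad on `B.erase e`, contradiction to `Je.mini.2` for `J' ⊂ Je`. -/
theorem Ctx.card_le {B : Finset V} {one : V} {C : Finset (Dual ℚ V)} (hC : Ctx B one C)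
    {x y : Dual ℚ V} (hx : x ∈ C) (hy : y ∈ C) (hxy : x ≠ y) {e : V} (he : e ∈ B)
    (hxe : x e ≠ 0) (hye : y e ≠ 0) : B.card ≤ finrank ℚ V + 2 := by
  by_contra hcard
  push Not at hcard
  have _ : DecidableEq (Dual ℚ V) := Classical.decEq _
  have hspe := hC.noncoloop hx hy hxy he hxe hye
  obtain ⟨ρ, a, hG, heρ⟩ := hC.avoid hx he hxe hspe
  obtain ⟨b₁, u, v, hb₁B, hb₁, hb₁e, hu, hv, huv, hua, hva, hX, hY⟩ :=
    hC.shape hx hy hxy he hxe hye hG heρ
  have haρ : a ∈ ρ := hG.own.1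
  have hxa : x a = 1 := hG.own.2.1
  have huB : u ∈ B := hG.sub hu
  have hvB : v ∈ B := hG.sub hv
  have hyu0 : y u ≠ 0 := (hY u huB).mpr (Or.inl rfl)
  have hyv0 : y v ≠ 0 := (hY v hvB).mpr (Or.inr (Or.inl rfl))
  have hyu : y u = 1 := (hC.zo y hy u huB).resolve_left hyu0
  have hyv : y v = 1 := (hC.zo y hy v hvB).resolve_left hyv0
  have hye1 : y e = 1 := (hC.zo y hy e he).resolve_left hye
  have hxb₁ : x b₁ ≠ 0 := (hX b₁ hb₁B).mpr (Or.inr (Or.inl rfl))
  -- the element `f`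
  obtain ⟨f, hfB, hfn⟩ : ∃ f ∈ B, f ∉ insert e (insert b₁ ρ) := by
    by_contra h
    push Not at h
    have h1 : B ⊆ insert e (insert b₁ ρ) := h
    have h2 := Finset.card_le_card h1
    have h3 := Finset.card_insert_le e (insert b₁ ρ)
    have h4 := Finset.card_insert_le b₁ ρ
    rw [hG.bas.card] at h4
    omega
  rw [Finset.mem_insert, Finset.mem_insert, not_or, not_or] at hfn
  obtain ⟨hfe, hfb, hfρ⟩ := hfn
  obtain ⟨Je, hJe⟩ := hC.je e he hspe
  have hspf : span ℚ ((B.erase f : Finset V) : Set V) = ⊤ := by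
    rw [eq_top_iff, ← hG.bas.2]
    apply span_mono
    intro b hb
    rw [Finset.mem_coe] at hb ⊢
    rw [Finset.mem_erase]
    refine ⟨?_, hG.sub hb⟩
    rintro rfl
    exact hfρ hb
  obtain ⟨Jf, hJf⟩ := hC.je f hfB hspf
  have hxJe : x ∈ Je := hC.mem_JE hx he hxe hspe hJe
  have hyJe : y ∈ Je := hC.mem_JE hy he hye hspe hJe
  obtain ⟨hxJf, _, _, _⟩ := hC.tight hJf hG hfρ
  have heBf : e ∈ B.erase f := Finset.mem_erase.mpr ⟨fun h => hfe h.symm, he⟩
  have hyJf : y ∉ Jf := by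
    intro h
    rcases hJf.dfc.dj x hxJf y h hxy e heBf with h | h
    · exact hxe h
    · exact hye h
  -- coordinates of `b₁`
  have hsum : co ρ u e + co ρ v e = 1 := by
    have h := two_term (c := y) hG.bas hu hv huv (by
      intro w hw hwu hwv
      by_contra h
      rcases (hY w (hG.sub hw)).mp h with h | h | h
      · exact hwu h
      · exact hwv h
      · exact heρ (h ▸ hw)) e
    rw [hyu, hyv, hye1, mul_one, mul_one] at h
    exact h.symm
  have hb₁co : co ρ u b₁ = 0 ∧ co ρ v b₁ = 0 := by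
    by_cases hue : co ρ u e = 0
    · have hve : co ρ v e ≠ 0 := by
        intro h
        rw [hue, h, add_zero] at hsum
        exact zero_ne_one hsum
      have := s4e_aux hC hx hy he hxe hG heρ hb₁B hb₁ hb₁e hv hu huv.symm hva hxb₁
        (fun b hb => by rw [hY b hb]; tauto) hfρ hfe hfb hJf hyJf hve
      exact ⟨this.2, this.1⟩
    · exact s4e_aux hC hx hy he hxe hG heρ hb₁B hb₁ hb₁e hu hv huv hua hxb₁ hY hfρ hfe hfb hJf hyJf
        hue
  have hcoz : ∀ b ∈ B, b ∉ ρ → b ≠ e → co ρ u b = 0 ∧ co ρ v b = 0 := by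
    intro b hb hbρ hbe
    by_cases hbb : b = b₁
    · rw [hbb]; exact hb₁co
    · have hxb : x b = 0 := by
        by_contra h
        rcases (hX b hb).mp h with h | h | h
        · exact hbρ (h ▸ haρ)
        · exact hbb h
        · exact hbe h
      have hyb : y b = 0 := by
        by_contra h
        rcases (hY b hb).mp h with h | h | h
        · exact hbρ (h ▸ hu)
        · exact hbρ (h ▸ hv)
        · exact hbe h
      exact hC.star hx hy hxy he hG heρ hb₁ hu hv huv hua hva hX hY hb hxb hyb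
  obtain ⟨_, hcard2, hcardJ, hspan⟩ := hC.tight hJe hG heρ
  have hρe : ρ ⊆ B.erase e := by
    intro b hb
    rw [Finset.mem_erase]
    refine ⟨?_, hG.sub hb⟩
    rintro rfl
    exact heρ hb
  -- the smaller family
  have hPJ' : PJF ρ (Je.erase y) ⊆ ρ := fun b hb => (mem_PJF.mp hb).1
  have hPJe : PJF ρ Je ⊆ ρ := fun b hb => (mem_PJF.mp hb).1
  have hnot : ∀ b ∈ ρ, (b = u ∨ b = v) → b ∉ PJF ρ (Je.erase y) := by
    intro b hb hbuv hmem
    obtain ⟨_, c, hc, hcb⟩ := mem_PJF.mp hmem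
    rw [Finset.mem_erase] at hc
    have hyb : y b ≠ 0 := by
      rcases hbuv with rfl | rfl
      · exact hyu0
      · exact hyv0
    rcases hJe.dfc.dj c hc.2 y hyJe hc.1 b (hρe hb) with h | h
    · exact hcb h
    · exact hyb h
  have hPJeq : PJF ρ (Je.erase y) = ((PJF ρ Je).erase u).erase v := by
    ext b
    rw [Finset.mem_erase, Finset.mem_erase]
    constructor
    · intro hb
      obtain ⟨hbρ, c, hc, hcb⟩ := mem_PJF.mp hb
      rw [Finset.mem_erase] at hc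
      refine ⟨?_, ?_, mem_PJF.mpr ⟨hbρ, c, hc.2, hcb⟩⟩
      · intro h; exact hnot b hbρ (Or.inr h) hb
      · intro h; exact hnot b hbρ (Or.inl h) hb
    · rintro ⟨hbv, hbu, hb⟩
      obtain ⟨hbρ, c, hc, hcb⟩ := mem_PJF.mp hb
      refine mem_PJF.mpr ⟨hbρ, c, ?_, hcb⟩
      rw [Finset.mem_erase]
      refine ⟨?_, hc⟩
      rintro rfl
      rcases (hY b (hG.sub hbρ)).mp hcb with h | h | h
      · exact hbu h
      · exact hbv h
      · exact heρ (h ▸ hbρ)
  have huP : u ∈ PJF ρ Je := mem_PJF.mpr ⟨hu, y, hyJe, hyu0⟩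
  have hvP : v ∈ (PJF ρ Je).erase u :=
    Finset.mem_erase.mpr ⟨huv.symm, mem_PJF.mpr ⟨hv, y, hyJe, hyv0⟩⟩
  have hcard' : (PJF ρ (Je.erase y)).card + 2 = (PJF ρ Je).card := by
    rw [hPJeq]
    have c1 := Finset.card_erase_add_one huP
    have c2 := Finset.card_erase_add_one hvP
    omega
  have hJcard := Finset.card_erase_add_one hyJe
  have hspan' : PJ (B.erase e) (Je.erase y) ⊆ (span ℚ (PJF ρ (Je.erase y) : Set V) : Set V) := by
    rintro b ⟨hb, c, hc, hcb⟩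
    have hc' := hc
    have hb' := hb
    rw [Finset.mem_erase] at hc' hb'
    by_cases hbρ : b ∈ ρ
    · apply subset_span
      rw [Finset.mem_coe]
      exact mem_PJF.mpr ⟨hbρ, c, hc, hcb⟩
    · have h1 : b ∈ span ℚ (PJF ρ Je : Set V) := hspan ⟨hb, c, hc'.2, hcb⟩
      rw [mem_span_iff hG.bas hPJe] at h1
      change b ∈ span ℚ (PJF ρ (Je.erase y) : Set V)
      rw [mem_span_iff hG.bas hPJ']
      intro w hw hwn
      by_cases hwu : w = u
      · rw [hwu]; exact (hcoz b hb'.2 hbρ hb'.1).1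
      · by_cases hwv : w = v
        · rw [hwv]; exact (hcoz b hb'.2 hbρ hb'.1).2
        · apply h1 w hw
          intro hwm
          apply hwn
          rw [hPJeq, Finset.mem_erase, Finset.mem_erase]
          exact ⟨hwv, hwu, hwm⟩
  have hdef : Deficit (B.erase e) (Je.erase y) := by
    refine ⟨⟨x, Finset.mem_erase.mpr ⟨hxy, hxJe⟩⟩, ?_, ?_, ?_⟩
    · intro c hc b hb
      exact hJe.dfc.zo c (Finset.mem_of_mem_erase hc) b hb
    · intro c hc d hd hcd b hb
      exact hJe.dfc.dj c (Finset.mem_of_mem_erase hc) d (Finset.mem_of_mem_erase hd) hcd b hb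
    · have h1 : finrank ℚ (span ℚ (PJ (B.erase e) (Je.erase y))) ≤
          finrank ℚ (span ℚ (PJF ρ (Je.erase y) : Set V)) :=
        Submodule.finrank_mono (span_le.mpr hspan')
      rw [hG.bas.finrank_sub hPJ'] at h1
      omega
  apply hJe.mini.2 (Je.erase y) (Finset.erase_ssubset hyJe)
  intro σ hσ hσB
  exact deficit_bad (one := one) (fun c hc => hC.sys.one c (hJe.sub (Finset.mem_of_mem_erase hc)))
    hdef hσ hσB

end Pool.Agent.Lib.ClG
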