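import Pool.Agent.Lib.ClG.Star
import Pool.Agent.Lib.ClG.K2

set_option autoImplicit false
set_option linter.unusedSectionVars false

open Finset Submodule Module

namespace Pool.Agent.Lib.ClG

variable {V : Type*} [AddCommGroup V] [Module ℚ V] [FiniteDimensional ℚ V] [DecidableEq V]

/-- JOB ClG-10a. Coordinates of linear relations for `B = ρ ∪ {e, b₁}`. PROOF: for `f = e`, `f = b₁`
trivial; for `f ∈ ρ` apply `co ρ f` to the relation: the sum over `ρ` gives `p f` (`co_self`,
`co_ne`), the other two terms are `p e * co ρ f e` and `p b₁ * co ρ f b₁`. -/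
theorem rel_coord {B ρ : Finset V} (hρ : IsB ρ) {e b₁ : V} (heρ : e ∉ ρ) (hb₁ : b₁ ∉ ρ)
    (hne : b₁ ≠ e) (hB : B = insert e (insert b₁ ρ)) (p : V → ℚ) (z : V)
    (hp : ∑ b ∈ B, p b • b = z) {f : V} (hf : f ∈ B) :
    p f = (if f = e ∨ f = b₁ then 0 else co ρ f z) +
      p e * (if f = e then 1 else if f = b₁ then 0 else - co ρ f e) +
      p b₁ * (if f = e then 0 else if f = b₁ then 1 else - co ρ f b₁) := by
  classical
  by_cases h1 : f = e
  · rw [if_pos (Or.inl h1), if_pos h1, if_pos h1, h1]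
    ring
  by_cases h2 : f = b₁
  · rw [if_pos (Or.inr h2), if_neg h1, if_pos h2, if_neg h1, if_pos h2, h2]
    ring
  have h3 : ¬ (f = e ∨ f = b₁) := by
    rintro (h | h)
    · exact h1 h
    · exact h2 h
  rw [if_neg h3, if_neg h1, if_neg h2, if_neg h1, if_neg h2]
  have hfρ : f ∈ ρ := by
    rw [hB, Finset.mem_insert, Finset.mem_insert] at hf
    rcases hf with h | h | h
    · exact absurd h h1
    · exact absurd h h2
    · exact h
  have heb : e ∉ insert b₁ ρ := by
    rw [Finset.mem_insert, not_or]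
    exact ⟨fun h => hne h.symm, heρ⟩
  rw [hB, Finset.sum_insert heb, Finset.sum_insert hb₁] at hp
  have h4 : co ρ f z = p e * co ρ f e + (p b₁ * co ρ f b₁ + p f) := by
    rw [← hp, map_add, map_add, map_smul, map_smul, map_sum, smul_eq_mul, smul_eq_mul]
    congr 2
    rw [Finset.sum_eq_single f]
    · rw [map_smul, co_self hρ hfρ, smul_eq_mul, mul_one]
    · intro b hb hbf
      rw [map_smul, co_ne hρ hfρ hb hbf, smul_zero]
    · intro h
      exact absurd hfρ h
  rw [h4]
  ring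

/-- coordinates of the relations: the coefficient of `e` -/
private noncomputable def s4fd (ρ : Finset V) (e b₁ f : V) : ℚ :=
  open Classical in if f = e then 1 else if f = b₁ then 0 else - co ρ f e

/-- coordinates of the relations: the coefficient of `b₁` -/
private noncomputable def s4fd' (ρ : Finset V) (e b₁ f : V) : ℚ :=
  open Classical in if f = e then 0 else if f = b₁ then 1 else - co ρ f b₁

/-- coordinates of the relations: the constant term -/
private noncomputable def s4fg (ρ : Finset V) (e b₁ : V) (z : V) (f : V) : ℚ :=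
  open Classical in if f = e ∨ f = b₁ then 0 else co ρ f z

/-- existence of the relations -/
private lemma s4f_rel {B ρ : Finset V} (hρ : IsB ρ) {e b₁ : V} (heρ : e ∉ ρ) (hb₁ : b₁ ∉ ρ)
    (hne : b₁ ≠ e) (hB : B = insert e (insert b₁ ρ)) (z : V) (s t : ℚ) :
    ∑ b ∈ B, (s4fg ρ e b₁ z b + s * s4fd ρ e b₁ b + t * s4fd' ρ e b₁ b) • b = z := by
  have heb : e ∉ insert b₁ ρ := by
    rw [Finset.mem_insert, not_or]
    exact ⟨fun h => hne h.symm, heρ⟩
  rw [hB, Finset.sum_insert heb, Finset.sum_insert hb₁]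
  have h1 : s4fg ρ e b₁ z e + s * s4fd ρ e b₁ e + t * s4fd' ρ e b₁ e = s := by
    unfold s4fg s4fd s4fd'
    rw [if_pos (Or.inl rfl), if_pos rfl, if_pos rfl]
    ring
  have h2 : s4fg ρ e b₁ z b₁ + s * s4fd ρ e b₁ b₁ + t * s4fd' ρ e b₁ b₁ = t := by
    unfold s4fg s4fd s4fd'
    rw [if_pos (Or.inr rfl), if_neg hne, if_pos rfl, if_neg hne, if_pos rfl]
    ring
  have h3 : ∑ b ∈ ρ, (s4fg ρ e b₁ z b + s * s4fd ρ e b₁ b + t * s4fd' ρ e b₁ b) • b =
      z - s • e - t • b₁ := by
    conv_rhs => rw [← expand hρ (z - s • e - t • b₁)]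
    apply Finset.sum_congr rfl
    intro b hb
    have hbe : b ≠ e := by rintro rfl; exact heρ hb
    have hbb : b ≠ b₁ := by rintro rfl; exact hb₁ hb
    unfold s4fg s4fd s4fd'
    rw [if_neg (by rintro (h | h); exacts [hbe h, hbb h]), if_neg hbe, if_neg hbb, if_neg hbe,
      if_neg hbb, map_sub, map_sub, map_smul, map_smul, smul_eq_mul, smul_eq_mul]
    congr 1
    ring
  rw [h1, h2, h3]
  abel

/-- a basis from a nonzero determinant -/
private lemma s4f_basis {B ρ : Finset V} (hρ : IsB ρ) {e b₁ : V} (heρ : e ∉ ρ) (hb₁ : b₁ ∉ ρ)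
    (hne : b₁ ≠ e) (hB : B = insert e (insert b₁ ρ)) {f p : V} (hf : f ∈ B) (hp : p ∈ B)
    (hdet : s4fd ρ e b₁ f * s4fd' ρ e b₁ p - s4fd ρ e b₁ p * s4fd' ρ e b₁ f ≠ 0) :
    f ≠ p ∧ IsB ((B.erase f).erase p) := by
  have hfp : f ≠ p := by
    rintro rfl
    apply hdet
    ring
  refine ⟨hfp, ?_⟩
  have heb : e ∉ insert b₁ ρ := by
    rw [Finset.mem_insert, not_or]
    exact ⟨fun h => hne h.symm, heρ⟩
  have hBc : B.card = finrank ℚ V + 2 := by
    rw [hB, Finset.card_insert_of_notMem heb, Finset.card_insert_of_notMem hb₁, hρ.card]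
  have hpf : p ∈ B.erase f := Finset.mem_erase.mpr ⟨hfp.symm, hp⟩
  -- a relation with given values at two elements
  have key : ∀ u v : V, u ∈ B → v ∈ B.erase u → ((B.erase u).erase v = (B.erase f).erase p) →
      s4fd ρ e b₁ u * s4fd' ρ e b₁ v - s4fd ρ e b₁ v * s4fd' ρ e b₁ u ≠ 0 →
      u ∈ span ℚ (((B.erase f).erase p : Finset V) : Set V) := by
    intro u v hu hv heq hD
    set D := s4fd ρ e b₁ u * s4fd' ρ e b₁ v - s4fd ρ e b₁ v * s4fd' ρ e b₁ u with hDdef
    have hr := s4f_rel hρ heρ hb₁ hne hB 0 (s4fd' ρ e b₁ v / D) (- s4fd ρ e b₁ v / D)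
    rw [← Finset.add_sum_erase B _ hu, ← Finset.add_sum_erase _ _ hv] at hr
    have hg0 : ∀ w, s4fg ρ e b₁ 0 w = 0 := by
      intro w
      unfold s4fg
      split_ifs
      · rfl
      · rw [map_zero]
    have c1 : s4fg ρ e b₁ 0 u + s4fd' ρ e b₁ v / D * s4fd ρ e b₁ u +
        - s4fd ρ e b₁ v / D * s4fd' ρ e b₁ u = 1 := by
      rw [hg0, zero_add]
      have : s4fd' ρ e b₁ v / D * s4fd ρ e b₁ u + - s4fd ρ e b₁ v / D * s4fd' ρ e b₁ u =
          D / D := by
        rw [hDdef]; ring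
      rw [this, div_self hD]
    have c2 : s4fg ρ e b₁ 0 v + s4fd' ρ e b₁ v / D * s4fd ρ e b₁ v +
        - s4fd ρ e b₁ v / D * s4fd' ρ e b₁ v = 0 := by
      rw [hg0]; ring
    rw [c1, c2, one_smul, zero_smul, zero_add, heq] at hr
    have hu' : u = - ∑ b ∈ (B.erase f).erase p, (s4fg ρ e b₁ 0 b + s4fd' ρ e b₁ v / D *
        s4fd ρ e b₁ b + - s4fd ρ e b₁ v / D * s4fd' ρ e b₁ b) • b := eq_neg_of_add_eq_zero_left hr
    rw [hu']
    apply neg_mem
    apply sum_mem
    intro b hb
    exact smul_mem _ _ (subset_span (Finset.mem_coe.mpr hb))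
  have hfs := key f p hf hpf rfl hdet
  have hps := key p f hp (Finset.mem_erase.mpr ⟨hfp, hf⟩) (Finset.erase_right_comm) (by
    intro h
    apply hdet
    linarith)
  apply isB_of_span
  · rw [eq_top_iff, ← hρ.2]
    apply span_le.mpr
    intro b hb
    have hbB : b ∈ B := by
      rw [hB]
      exact Finset.mem_insert_of_mem (Finset.mem_insert_of_mem (Finset.mem_coe.mp hb))
    by_cases hbf : b = f
    · rw [hbf]; exact hfs
    by_cases hbp : b = p
    · rw [hbp]; exact hps
    · apply subset_span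
      rw [Finset.mem_coe, Finset.mem_erase, Finset.mem_erase]
      exact ⟨hbp, hbf, hbB⟩
  · rw [Finset.card_erase_of_mem hpf, Finset.card_erase_of_mem hf, hBc]
    omega

/-- the support of a column that meets another one has three elements -/
private lemma s4f_card3 {B : Finset V} {one : V} {C : Finset (Dual ℚ V)} (hC : Ctx B one C)
    {c c' : Dual ℚ V} (hc : c ∈ C) (hc' : c' ∈ C) (hne : c ≠ c') {b : V} (hb : b ∈ B)
    (hcb : c b ≠ 0) (hcb' : c' b ≠ 0) : (PF B c).card = 3 := by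
  have hsp := hC.noncoloop hc hc' hne hb hcb hcb'
  obtain ⟨ρ, a, hG, hbρ⟩ := hC.avoid hc hb hcb hsp
  obtain ⟨b₁, u, v, hb₁B, hb₁, hb₁e, hu, hv, huv, hua, hva, hX, hY⟩ :=
    hC.shape hc hc' hne hb hcb hcb' hG hbρ
  have haρ : a ∈ ρ := hG.own.1
  have h1 : PF B c = {a, b₁, b} := by
    ext w
    rw [mem_PF, Finset.mem_insert, Finset.mem_insert, Finset.mem_singleton]
    constructor
    · rintro ⟨hw, hcw⟩
      exact (hX w hw).mp hcw
    · intro h
      have hw : w ∈ B := by
        rcases h with rfl | rfl | rfl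
        · exact hG.sub haρ
        · exact hb₁B
        · exact hb
      exact ⟨hw, (hX w hw).mpr h⟩
  rw [h1, Finset.card_eq_three]
  refine ⟨a, b₁, b, ?_, ?_, hb₁e, rfl⟩
  · rintro rfl; exact hb₁ haρ
  · rintro rfl; exact hbρ haρ

/-- no coloops in supports with three elements -/
private lemma s4f_span {B : Finset V} {one : V} {C : Finset (Dual ℚ V)} (hC : Ctx B one C)
    {c : Dual ℚ V} (hc : c ∈ C) (h3 : (PF B c).card = 3) {f : V} (hf : f ∈ PF B c) :
    span ℚ ((B.erase f : Finset V) : Set V) = ⊤ := by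
  obtain ⟨ρ, a, hG⟩ := exists_GG hC.mini hc
  have hgen : ∀ σ : Finset V, σ ⊆ B → IsB σ → f ∉ σ →
      span ℚ ((B.erase f : Finset V) : Set V) = ⊤ := by
    intro σ hσ hσB hfσ
    rw [eq_top_iff, ← hσB.2]
    apply span_mono
    intro b hb
    rw [Finset.mem_coe] at hb ⊢
    rw [Finset.mem_erase]
    refine ⟨?_, hσ hb⟩
    rintro rfl
    exact hfσ hb
  by_cases hfρ : f ∈ ρ
  · have hfa : f = a := by
      by_contra h
      exact (mem_PF.mp hf).2 (hG.own.2.2 f hfρ h)
    obtain ⟨q, hq, hqf⟩ : ∃ q ∈ PF B c, q ≠ f := by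
      by_contra hcon
      push Not at hcon
      have h1 : PF B c ⊆ {f} := fun w hw => Finset.mem_singleton.mpr (hcon w hw)
      have h2 := Finset.card_le_card h1
      rw [Finset.card_singleton, h3] at h2
      omega
    have hqρ : q ∉ ρ := by
      intro h
      apply (mem_PF.mp hq).2
      apply hG.own.2.2 q h
      rw [← hfa]; exact hqf
    have hG' := hC.exchange hG (mem_PF.mp hq).1 hqρ (mem_PF.mp hq).2
    apply hgen _ hG'.sub hG'.bas
    rw [Finset.mem_insert, Finset.mem_erase, not_or, not_and]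
    exact ⟨fun h => hqf h.symm, fun h => absurd hfa h⟩
  · exact hgen ρ hG.sub hG.bas hfρ

/-- JOB ClG-10b. PROOF. `B.card = finrank V + 2`: `≤` is `hcard`; `≥` because for `ρ, a` with
`GG B C x ρ a`, `e ∉ ρ` (`Ctx.noncoloop`, `Ctx.avoid`) and `b₁ u v` from `Ctx.shape` the elements
`e, b₁` are not in `ρ`. So `B = insert e (insert b₁ ρ)`. Put `d f = if f = e then 1 else if f = b₁
then 0 else - co ρ f e`, `d' f = if f = e then 0 else if f = b₁ then 1 else - co ρ f b₁`,
`g f = if f = e ∨ f = b₁ then 0 else co ρ f one`. By `rel_coord`: every relation `∑ p b • b = z` has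
`p f = (g_z f) + p e * d f + p b₁ * d' f` (`z = 0`: `g = 0`; `z = one`).
Conversely, for all `s t` there is a relation with `p e = s`, `p b₁ = t` for `z = one`:
`p f = g f + s * d f + t * d' f` (expand `one - s • e - t • b₁` in the basis `ρ`), and for `z = 0`.
(i) For `c ∈ C`: `∑ b ∈ B, c b * p b = 1` for every relation with `z = one` (apply `c`), hence
`∑_{PF B c} g = 1`, `∑_{PF B c} d = 0`, `∑_{PF B c} d' = 0` (compare `s, t`).
(ii) `f ≠ p` in `B`, `det f p = d f * d' p - d p * d' f ≠ 0` implies that `B \ {f, p}` is a basis: it has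
`finrank V` elements and is independent: a relation `p` with `p f = p p = 0` and `z = 0` has
`p e * d f + p b₁ * d' f = 0`, `p e * d p + p b₁ * d' p = 0`, so `p e = p b₁ = 0`, so `p = 0`.
(iii) `(d f, d' f) ≠ 0` for `f ∈ B` with `B.erase f` spanning: `f = e, b₁` clear. Otherwise, if
`co ρ f e = co ρ f b₁ = 0` then `co ρ f = 0` on `B.erase f`, so `co ρ f = 0`, contradiction.
Apply `K2` with `ι = V`, `O' = {c ∈ C : ∃ c' ∈ C, c' ≠ c, ∃ b ∈ B, c b ≠ 0, c' b ≠ 0}`,
`O = O'.image (PF B)`, `U = O'.biUnion (PF B)`.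
* `h3`: `PF B c` has three elements by `Ctx.shape` (apply it to `c` and `c'` at the common element),
  sums by (i). * `hint`: if `p ≠ q` are in `PF B c` and `PF B c'` then `c = c'` (`Ctx.inter`).
* `hnz`: elements of `U` are no coloops: every `f ∈ PF B c`, `c ∈ O'`: if `f` is the common element
  with `c'` use `Ctx.noncoloop`; in general: take `ρ', a'` with `GG B C c ρ' a'`; if `f ∉ ρ'` then
  `B.erase f ⊇ ρ'` spans; if `f ∈ ρ'`, `f = a'`, take `q ∈ PF B c`, `q ≠ f` (three elements), `q ∉ ρ'`,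
  and `Ctx.exchange` gives a basis without `f`.
* `hcov`: `f, p ∈ U`, `det ≠ 0`; `f ≠ p`; `B \ {f, p}` is a basis, so bad by some `c ∈ C` with owner `h`:
  `c h = 1`, `c = 0` on the other elements of `B` except `f, p`. Not both `c f = 0` and `c p = 0`:
  otherwise `{c}` is a deficit of `B` (`PJ B {c} = {h}`, rank `≤ 1`), so `{c}` is all-bad
  (`deficit_bad`), contradiction to `Mini` as `{c} ⊂ C` (`C` contains `x ≠ y`). Say `c f ≠ 0` (the
  other case is symmetric). `f ∈ PF B c₀` for some `c₀ ∈ O'`; `c ∈ O'`: either `c = c₀` or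
  `c ≠ c₀` and both contain `f`. So `PF B c` has three elements, all in `{f, p, h}`, so it contains
  `f` and `p`.
* `hgen`: `f, p` with `det ≠ 0`, `q ∈ U` different from both, `s, t` with `D_f = D_p = 0`: the relation
  `p' b = g b + s * d b + t * d' b` for `one` vanishes at `f, p`, so `p' q = co (B \ {f, p}) q one ≠ 0`
  by `Sys.co_one_ne`.
* `hne`: `f = e`, `p = b₁` (both in `PF B x`, `x ∈ O'`), `det = 1`. * `hcard`: `PF B x ∪ PF B y` has the
  five elements `a, b₁, e, u, v`. -/
theorem Ctx.k2 {B : Finset V} {one : V} {C : Finset (Dual ℚ V)} (hC : Ctx B one C)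
    {x y : Dual ℚ V} (hx : x ∈ C) (hy : y ∈ C) (hxy : x ≠ y) {e : V} (he : e ∈ B)
    (hxe : x e ≠ 0) (hye : y e ≠ 0) (hcard : B.card ≤ finrank ℚ V + 2) : False := by
  classical
  have hspe := hC.noncoloop hx hy hxy he hxe hye
  obtain ⟨ρ, a, hG, heρ⟩ := hC.avoid hx he hxe hspe
  obtain ⟨b₁, u, v, hb₁B, hb₁, hb₁e, hu, hv, huv, hua, hva, hX, hY⟩ :=
    hC.shape hx hy hxy he hxe hye hG heρ
  have haρ : a ∈ ρ := hG.own.1
  have haB : a ∈ B := hG.sub haρ
  have huB : u ∈ B := hG.sub hu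
  have hρ := hG.bas
  have heb : e ∉ insert b₁ ρ := by
    rw [Finset.mem_insert, not_or]
    exact ⟨fun h => hb₁e h.symm, heρ⟩
  have hB : B = insert e (insert b₁ ρ) := by
    symm
    apply Finset.eq_of_subset_of_card_le
    · exact Finset.insert_subset he (Finset.insert_subset hb₁B hG.sub)
    · rw [Finset.card_insert_of_notMem heb, Finset.card_insert_of_notMem hb₁, hρ.card]
      exact hcard
  set d := s4fd ρ e b₁ with hd
  set d' := s4fd' ρ e b₁ with hd'
  set g := s4fg ρ e b₁ one with hg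
  have hrel : ∀ s t : ℚ, ∑ b ∈ B, (g b + s * d b + t * d' b) • b = one := fun s t =>
    s4f_rel hρ heρ hb₁ hb₁e hB one s t
  -- (i)
  have hsumB : ∀ c ∈ C, ∀ φ : V → ℚ, ∑ b ∈ PF B c, φ b = ∑ b ∈ B, φ b * c b := by
    intro c hc φ
    have h1 : PF B c = B.filter (fun b => c b ≠ 0) := by
      ext b
      rw [mem_PF, Finset.mem_filter]
    rw [h1, Finset.sum_filter]
    apply Finset.sum_congr rfl
    intro b hb
    rcases hC.zo c hc b hb with h | h
    · rw [h, if_neg (by simp), mul_zero]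
    · rw [h, if_pos one_ne_zero, mul_one]
  have hsum : ∀ c ∈ C, ∀ s t : ℚ, ∑ b ∈ B, g b * c b + s * ∑ b ∈ B, d b * c b +
      t * ∑ b ∈ B, d' b * c b = 1 := by
    intro c hc s t
    have h1 := congrArg c (hrel s t)
    rw [hC.sys.one c hc, map_sum] at h1
    rw [← h1, Finset.mul_sum, Finset.mul_sum, ← Finset.sum_add_distrib, ← Finset.sum_add_distrib]
    apply Finset.sum_congr rfl
    intro b _
    rw [map_smul, smul_eq_mul]
    ring
  have hi : ∀ c ∈ C, ∑ b ∈ PF B c, d b = 0 ∧ ∑ b ∈ PF B c, d' b = 0 ∧ ∑ b ∈ PF B c, g b = 1 := by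
    intro c hc
    rw [hsumB c hc, hsumB c hc, hsumB c hc]
    have h0 := hsum c hc 0 0
    have h1 := hsum c hc 1 0
    have h2 := hsum c hc 0 1
    refine ⟨by linarith, by linarith, by linarith⟩
  -- the family of columns meeting another one
  set O' : Finset (Dual ℚ V) := C.filter (fun c => ∃ c' ∈ C, c' ≠ c ∧ ∃ b ∈ B, c b ≠ 0 ∧ c' b ≠ 0)
    with hO'
  have hO'C : ∀ c ∈ O', c ∈ C := fun c hc => (Finset.mem_filter.mp hc).1
  have hO'3 : ∀ c ∈ O', (PF B c).card = 3 := by
    intro c hc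
    obtain ⟨hcC, c', hc', hne, b, hb, h1, h2⟩ := Finset.mem_filter.mp hc
    exact s4f_card3 hC hcC hc' hne.symm hb h1 h2
  have hxO : x ∈ O' := Finset.mem_filter.mpr ⟨hx, y, hy, hxy.symm, e, he, hxe, hye⟩
  have hyO : y ∈ O' := Finset.mem_filter.mpr ⟨hy, x, hx, hxy, e, he, hye, hxe⟩
  set U : Finset V := O'.biUnion (PF B) with hU
  have hUB : ∀ f ∈ U, f ∈ B := by
    intro f hf
    obtain ⟨c, _, h⟩ := Finset.mem_biUnion.mp hf
    exact (mem_PF.mp h).1
  have hmemU : ∀ c ∈ O', ∀ f ∈ B, c f ≠ 0 → f ∈ U := fun c hc f hf h =>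
    Finset.mem_biUnion.mpr ⟨c, hc, mem_PF.mpr ⟨hf, h⟩⟩
  have hO'mem : ∀ c ∈ C, ∀ f ∈ U, c f ≠ 0 → c ∈ O' := by
    intro c hc f hf hcf
    obtain ⟨c₀, hc₀, h⟩ := Finset.mem_biUnion.mp hf
    by_cases hcc : c₀ = c
    · rw [← hcc]; exact hc₀
    · exact Finset.mem_filter.mpr ⟨hc, c₀, hO'C c₀ hc₀, hcc, f, hUB f hf, hcf, (mem_PF.mp h).2⟩
  have hdet : ∀ f ∈ B, ∀ p ∈ B, d f * d' p - d p * d' f ≠ 0 → f ≠ p ∧ IsB ((B.erase f).erase p) :=
    fun f hf p hp h => s4f_basis hρ heρ hb₁ hb₁e hB hf hp h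
  refine K2 U (O'.image (PF B)) d d' g ?_ ?_ ?_ ?_ ?_ ?_ ?_
  · -- h3
    intro T hT
    obtain ⟨c, hc, rfl⟩ := Finset.mem_image.mp hT
    obtain ⟨h1, h2, h3⟩ := hi c (hO'C c hc)
    exact ⟨Finset.subset_biUnion_of_mem (PF B) hc, hO'3 c hc, h1, h2, h3⟩
  · -- hint
    intro T hT T' hT' p q hpq hp hq hp' hq'
    obtain ⟨c, hc, rfl⟩ := Finset.mem_image.mp hT
    obtain ⟨c', hc', rfl⟩ := Finset.mem_image.mp hT'
    by_contra hne
    have hcc : c ≠ c' := by rintro rfl; exact hne rfl
    have h1 := mem_PF.mp hp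
    have h2 := mem_PF.mp hq
    exact hpq (hC.inter (hO'C c hc) (hO'C c' hc') hcc h1.1 h1.2 (mem_PF.mp hp').2 h2.1 h2.2
      (mem_PF.mp hq').2).symm
  · -- hnz
    intro f hf
    obtain ⟨c, hc, hfc⟩ := Finset.mem_biUnion.mp hf
    have hsp := s4f_span hC (hO'C c hc) (hO'3 c hc) hfc
    by_contra hcon
    push Not at hcon
    obtain ⟨h1, h2⟩ := hcon
    have hfB := hUB f hf
    have hfe : f ≠ e := by
      intro h
      rw [hd] at h1
      unfold s4fd at h1
      rw [if_pos h] at h1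
      exact one_ne_zero h1
    have hfb : f ≠ b₁ := by
      intro h
      rw [hd'] at h2
      unfold s4fd' at h2
      rw [if_neg hfe, if_pos h] at h2
      exact one_ne_zero h2
    have hfρ : f ∈ ρ := by
      rw [hB, Finset.mem_insert, Finset.mem_insert] at hfB
      rcases hfB with h | h | h
      · exact absurd h hfe
      · exact absurd h hfb
      · exact h
    rw [hd] at h1
    rw [hd'] at h2
    unfold s4fd at h1
    unfold s4fd' at h2
    rw [if_neg hfe, if_neg hfb] at h1 h2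
    have h3 : co ρ f = 0 := by
      apply dual_ext_span hsp
      intro w hw
      rw [LinearMap.zero_apply]
      rw [Finset.mem_erase] at hw
      obtain ⟨hwf, hwB⟩ := hw
      rw [hB, Finset.mem_insert, Finset.mem_insert] at hwB
      rcases hwB with h | h | h
      · rw [h]; linarith
      · rw [h]; linarith
      · exact co_ne hρ hfρ h hwf
    have h4 := co_self hρ hfρ
    rw [h3, LinearMap.zero_apply] at h4
    exact zero_ne_one h4
  · -- hcov
    intro f hf p hp hD
    obtain ⟨hfp, hσ⟩ := hdet f (hUB f hf) p (hUB p hp) hD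
    obtain ⟨c, hc, h, hdual⟩ := hC.mini.1 _
      ((Finset.erase_subset _ _).trans (Finset.erase_subset _ _)) hσ
    have hsupp : ∀ w ∈ B, c w ≠ 0 → w = f ∨ w = p ∨ w = h := by
      intro w hw hcw
      by_contra hcon
      push Not at hcon
      obtain ⟨h1, h2, h3⟩ := hcon
      exact hcw (hdual.2.2 w (Finset.mem_erase.mpr ⟨h2, Finset.mem_erase.mpr ⟨h1, hw⟩⟩) h3)
    have hnot : ¬ (c f = 0 ∧ c p = 0) := by
      rintro ⟨h1, h2⟩
      have hsub : PJ B {c} ⊆ {h} := by
        rintro w ⟨hw, c', hc', hcw⟩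
        rw [Finset.mem_singleton.mp hc'] at hcw
        rcases hsupp w hw hcw with h' | h' | h'
        · rw [h'] at hcw; exact absurd h1 hcw
        · rw [h'] at hcw; exact absurd h2 hcw
        · exact h'
      have hdef : Deficit B {c} := by
        refine ⟨Finset.singleton_nonempty c, ?_, ?_, ?_⟩
        · intro c' hc'
          rw [Finset.mem_singleton.mp hc']
          exact hC.zo c hc
        · intro c' hc' c'' hc'' hne
          exact absurd ((Finset.mem_singleton.mp hc').trans (Finset.mem_singleton.mp hc'').symm) hne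
        · rw [Finset.card_singleton]
          have h3 : finrank ℚ (span ℚ (PJ B {c})) ≤ finrank ℚ (span ℚ ({h} : Set V)) :=
            Submodule.finrank_mono (span_mono hsub)
          have h4 := finrank_span_finset_le_card (R := ℚ) ({h} : Finset V)
          rw [Finset.coe_singleton, Finset.card_singleton] at h4
          change finrank ℚ (span ℚ ({h} : Set V)) ≤ 1 at h4
          omega
      have hss : ({c} : Finset (Dual ℚ V)) ⊂ C := by
        rw [Finset.ssubset_iff_subset_ne]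
        refine ⟨Finset.singleton_subset_iff.mpr hc, ?_⟩
        intro heq
        rw [← heq] at hx hy
        exact hxy ((Finset.mem_singleton.mp hx).trans (Finset.mem_singleton.mp hy).symm)
      apply hC.mini.2 {c} hss
      intro τ hτ hτB
      exact deficit_bad (one := one) (fun c' hc' => by
        rw [Finset.mem_singleton.mp hc']
        exact hC.sys.one c hc) hdef hτ hτB
    have hcO : c ∈ O' := by
      by_cases h1 : c f = 0
      · exact hO'mem c hc p hp (fun h2 => hnot ⟨h1, h2⟩)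
      · exact hO'mem c hc f hf h1
    refine ⟨PF B c, Finset.mem_image_of_mem _ hcO, ?_⟩
    have h1 : PF B c ⊆ {f, p, h} := by
      intro w hw
      rw [mem_PF] at hw
      rw [Finset.mem_insert, Finset.mem_insert, Finset.mem_singleton]
      exact hsupp w hw.1 hw.2
    have h2 : PF B c = {f, p, h} := by
      apply Finset.eq_of_subset_of_card_le h1
      rw [hO'3 c hcO]
      exact Finset.card_le_three
    rw [h2]
    simp
  · -- hgen
    intro f hf p hp hD q hq hqf hqp s t h1 h2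
    obtain ⟨hfp, hσ⟩ := hdet f (hUB f hf) p (hUB p hp) hD
    have hqσ : q ∈ (B.erase f).erase p :=
      Finset.mem_erase.mpr ⟨hqp, Finset.mem_erase.mpr ⟨hqf, hUB q hq⟩⟩
    have hpf : p ∈ B.erase f := Finset.mem_erase.mpr ⟨hfp.symm, hUB p hp⟩
    have hr := hrel s t
    rw [← Finset.add_sum_erase B _ (hUB f hf), ← Finset.add_sum_erase _ _ hpf, h1, h2, zero_smul,
      zero_smul, zero_add, zero_add] at hr
    have h3 := congrArg (co ((B.erase f).erase p) q) hr
    rw [map_sum, Finset.sum_eq_single q] at h3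
    · rw [map_smul, co_self hσ hqσ, smul_eq_mul, mul_one] at h3
      rw [h3]
      exact hC.sys.co_one_ne ((Finset.erase_subset _ _).trans (Finset.erase_subset _ _)) hσ hqσ
    · intro b hb hbq
      rw [map_smul, co_ne hσ hqσ hb hbq, smul_zero]
    · intro h
      exact absurd hqσ h
  · -- hne
    refine ⟨e, hmemU x hxO e he hxe, b₁, hmemU x hxO b₁ hb₁B
      ((hX b₁ hb₁B).mpr (Or.inr (Or.inl rfl))), ?_⟩
    have e1 : d e = 1 := by rw [hd]; unfold s4fd; rw [if_pos rfl]
    have e2 : d' b₁ = 1 := by rw [hd']; unfold s4fd'; rw [if_neg hb₁e, if_pos rfl]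
    have e3 : d b₁ = 0 := by rw [hd]; unfold s4fd; rw [if_neg hb₁e, if_pos rfl]
    rw [e1, e2, e3]
    norm_num
  · -- hcard
    have hsub : ({a, b₁, e, u} : Finset V) ⊆ U := by
      intro w hw
      simp only [Finset.mem_insert, Finset.mem_singleton] at hw
      rcases hw with rfl | rfl | rfl | rfl
      · exact hmemU x hxO _ haB ((hX _ haB).mpr (Or.inl rfl))
      · exact hmemU x hxO _ hb₁B ((hX _ hb₁B).mpr (Or.inr (Or.inl rfl)))
      · exact hmemU x hxO _ he hxe
      · exact hmemU y hyO _ huB ((hY _ huB).mpr (Or.inl rfl))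
    have h4 : ({a, b₁, e, u} : Finset V).card = 4 := by
      have n1 : a ≠ b₁ := by rintro rfl; exact hb₁ haρ
      have n2 : a ≠ e := by rintro rfl; exact heρ haρ
      have n3 : b₁ ≠ u := by rintro rfl; exact hb₁ hu
      have n4 : e ≠ u := by rintro rfl; exact heρ hu
      rw [Finset.card_insert_of_notMem (by simp [n1, n2, hua.symm]),
        Finset.card_insert_of_notMem (by simp [hb₁e, n3]),
        Finset.card_insert_of_notMem (by simp [n4]), Finset.card_singleton]
    rw [← h4]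
    exact Finset.card_le_card hsub

end Pool.Agent.Lib.ClG
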