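import Pool.Agent.Lib.ClG.Disj
import Pool.Agent.Lib.ClG.Step1
import Pool.Agent.Lib.ClG.Step4e
import Pool.Agent.Lib.ClG.Step4f

/-!
# Claim G
-/

set_option autoImplicit false
set_option linter.unusedSectionVars false

open Finset Submodule Module

namespace Pool.Agent.Lib.ClG

variable {V : Type*} [AddCommGroup V] [Module ℚ V] [FiniteDimensional ℚ V]

/-- existence of a minimal all-bad subfamily -/
theorem exists_mini {B : Finset V} {C : Finset (Dual ℚ V)} (hA : AllBad B C) :
    ∃ C' ⊆ C, Mini B C' := by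
  classical
  induction h : C.card using Nat.strong_induction_on generalizing C with
  | _ n ih =>
    by_cases hm : ∀ C' : Finset (Dual ℚ V), C' ⊂ C → ¬ AllBad B C'
    · exact ⟨C, Finset.Subset.refl _, hA, hm⟩
    · push Not at hm
      obtain ⟨C', h1, h2⟩ := hm
      obtain ⟨C'', h3, h4⟩ := ih C'.card (h ▸ Finset.card_lt_card h1) h2 rfl
      exact ⟨C'', h3.trans h1.1, h4⟩

theorem Sys.mono {B : Finset V} {one : V} {C C' : Finset (Dual ℚ V)} (hS : Sys B one C)
    (h : C' ⊆ C) : Sys B one C' :=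
  ⟨hS.sp, hS.gen, fun c hc => hS.nat c (h hc), fun c hc => hS.one c (h hc)⟩

theorem Sys.sub {B B' : Finset V} {one : V} {C : Finset (Dual ℚ V)} (hS : Sys B one C)
    (h : B' ⊆ B) (hsp : span ℚ (B' : Set V) = ⊤) : Sys B' one C :=
  ⟨hsp, fun T hT h1 => hS.gen T (hT.trans h) h1, fun c hc b hb => hS.nat c hc b (h hb), hS.one⟩

/-- CLAIM G -/
theorem claimG {B : Finset V} {one : V} {C : Finset (Dual ℚ V)} (hS : Sys B one C)
    (hA : AllBad B C) : ∃ J ⊆ C, Deficit B J := by
  classical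
  induction hn : B.card using Nat.strong_induction_on generalizing B C with
  | _ n ih =>
    obtain ⟨C₁, hC₁, hM⟩ := exists_mini hA
    have hS₁ : Sys B one C₁ := hS.mono hC₁
    have hzo : ∀ c ∈ C₁, ∀ b ∈ B, c b = 0 ∨ c b = 1 := by
      intro c hc b hb
      obtain ⟨ρ, a, hG⟩ := exists_GG hM hc
      exact step1 hS₁ hM.1 hG hb
    have hctx : Ctx B one C₁ := by
      refine ⟨hS₁, hM, hzo, ?_⟩
      intro e he hsp
      have hSe : Sys (B.erase e) one C₁ := hS₁.sub (Finset.erase_subset _ _) hsp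
      have hAe : AllBad (B.erase e) C₁ := fun ρ hρ hb =>
        hM.1 ρ (hρ.trans (Finset.erase_subset _ _)) hb
      obtain ⟨J, hJ, hJm⟩ := exists_mini hAe
      have hSJ := hSe.mono hJ
      obtain ⟨J', hJ', hD⟩ := ih (B.erase e).card
        (hn ▸ Finset.card_lt_card (Finset.erase_ssubset he)) hSJ hJm.1 rfl
      have hbad : AllBad (B.erase e) J' := fun ρ hρ hb =>
        deficit_bad (one := one) (fun c hc => hSJ.one c (hJ' hc)) hD hρ hb
      have heq : J' = J := by
        by_contra hne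
        exact hJm.2 J' ((Finset.ssubset_iff_subset_ne).mpr ⟨hJ', hne⟩) hbad
      subst heq
      exact ⟨J', hJ, hJm, hD⟩
    have hdj : ∀ c ∈ C₁, ∀ d ∈ C₁, c ≠ d → ∀ b ∈ B, c b = 0 ∨ d b = 0 := by
      intro x hx y hy hxy e he
      by_contra hcon
      push Not at hcon
      exact hctx.k2 hx hy hxy he hcon.1 hcon.2 (hctx.card_le hx hy hxy he hcon.1 hcon.2)
    obtain ⟨J, hJ, hD⟩ := disjoint_case hS₁ hM.1 hzo hdj
    exact ⟨J, hJ.trans hC₁, hD⟩

end Pool.Agent.Lib.ClG
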