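import Pool.Agent.Lib.ClG.Basic

set_option autoImplicit false
set_option linter.unusedSectionVars false

open Finset Submodule Module

namespace Pool.Agent.Lib.ClG

variable {V : Type*} [AddCommGroup V] [Module ℚ V] [FiniteDimensional ℚ V]

private lemma rado_aux {ι : Type*} [Fintype ι] [DecidableEq ι] (N : ℕ) :
    ∀ A : ι → Finset V, ∑ i, (A i).card = N →
    (∀ I : Finset ι, I.card ≤ finrank ℚ (span ℚ (⋃ i ∈ I, (A i : Set V)))) →
    ∃ f : ι → V, (∀ i, f i ∈ A i) ∧ LinearIndependent ℚ f := by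
  classical
  induction N using Nat.strong_induction_on with
  | _ N ih =>
  intro A hN h
  have hne : ∀ i, (A i).Nonempty := by
    intro i
    rw [Finset.nonempty_iff_ne_empty]
    intro h0
    have h1 := h {i}
    simp [h0] at h1
  by_cases hone : ∀ i, (A i).card = 1
  · have h1 : ∀ i, ∃ a, A i = {a} := fun i => Finset.card_eq_one.mp (hone i)
    choose f hf using h1
    refine ⟨f, fun i => by rw [hf i]; exact Finset.mem_singleton_self _, ?_⟩
    rw [linearIndependent_iff_card_le_finrank_span]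
    have h2 := h univ
    have h3 : (⋃ i ∈ (univ : Finset ι), (A i : Set V)) = Set.range f := by
      ext x
      simp only [Finset.mem_univ, Set.iUnion_true, Set.mem_iUnion, Set.mem_range, hf,
        Finset.coe_singleton, Set.mem_singleton_iff]
      constructor
      · rintro ⟨i, hi⟩
        exact ⟨i, hi.symm⟩
      · rintro ⟨i, hi⟩
        exact ⟨i, hi.symm⟩
    rw [h3, Finset.card_univ] at h2
    exact h2
  push Not at hone
  obtain ⟨i, hi⟩ := hone
  have hi2 : 1 < (A i).card := by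
    have := Finset.card_pos.mpr (hne i)
    omega
  obtain ⟨x, hx, y, hy, hxy⟩ := Finset.one_lt_card.mp hi2
  -- the reduced families
  have hstep : ∀ z ∈ A i, (∀ I : Finset ι, I.card ≤ finrank ℚ
      (span ℚ (⋃ j ∈ I, (Function.update A i ((A i).erase z) j : Set V)))) →
      ∃ f : ι → V, (∀ i, f i ∈ A i) ∧ LinearIndependent ℚ f := by
    intro z hz hc
    have hlt : ∑ j, (Function.update A i ((A i).erase z) j).card < N := by
      rw [← hN]
      apply Finset.sum_lt_sum
      · intro j _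
        by_cases hj : j = i
        · rw [hj, Function.update_self]
          exact Finset.card_le_card (Finset.erase_subset _ _)
        · rw [Function.update_of_ne hj]
      · refine ⟨i, Finset.mem_univ i, ?_⟩
        rw [Function.update_self]
        exact Finset.card_lt_card (Finset.erase_ssubset hz)
    obtain ⟨f, hf1, hf2⟩ := ih _ hlt _ rfl hc
    refine ⟨f, fun j => ?_, hf2⟩
    have h1 := hf1 j
    by_cases hj : j = i
    · rw [hj] at h1 ⊢
      rw [Function.update_self] at h1
      exact Finset.mem_of_mem_erase h1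
    · rw [Function.update_of_ne hj] at h1
      exact h1
  by_cases hcx : ∀ I : Finset ι, I.card ≤ finrank ℚ
      (span ℚ (⋃ j ∈ I, (Function.update A i ((A i).erase x) j : Set V)))
  · exact hstep x hx hcx
  by_cases hcy : ∀ I : Finset ι, I.card ≤ finrank ℚ
      (span ℚ (⋃ j ∈ I, (Function.update A i ((A i).erase y) j : Set V)))
  · exact hstep y hy hcy
  exfalso
  push Not at hcx hcy
  obtain ⟨I₁, h1⟩ := hcx
  obtain ⟨I₂, h2⟩ := hcy
  have hmem : ∀ (z : V) (I : Finset ι), finrank ℚ
      (span ℚ (⋃ j ∈ I, (Function.update A i ((A i).erase z) j : Set V))) < I.card → i ∈ I := by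
    intro z I hI
    by_contra hiI
    have h3 : (⋃ j ∈ I, (Function.update A i ((A i).erase z) j : Set V)) =
        ⋃ j ∈ I, (A j : Set V) := by
      apply Set.iUnion₂_congr
      intro j hj
      have : j ≠ i := by
        rintro rfl
        exact hiI hj
      rw [Function.update_of_ne this]
    rw [h3] at hI
    have := h I
    omega
  have hi1 := hmem x I₁ h1
  have hi2' := hmem y I₂ h2
  set U₁ := span ℚ (⋃ j ∈ I₁, (Function.update A i ((A i).erase x) j : Set V)) with hU₁
  set U₂ := span ℚ (⋃ j ∈ I₂, (Function.update A i ((A i).erase y) j : Set V)) with hU₂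
  have hA1 : ∀ j ∈ I₁, j ≠ i → ∀ v ∈ A j, v ∈ U₁ := by
    intro j hj hji v hv
    apply subset_span
    rw [Set.mem_iUnion₂]
    refine ⟨j, hj, ?_⟩
    rw [Function.update_of_ne hji]
    exact hv
  have hA2 : ∀ j ∈ I₂, j ≠ i → ∀ v ∈ A j, v ∈ U₂ := by
    intro j hj hji v hv
    apply subset_span
    rw [Set.mem_iUnion₂]
    refine ⟨j, hj, ?_⟩
    rw [Function.update_of_ne hji]
    exact hv
  have hA3 : ∀ v ∈ A i, v ≠ x → v ∈ U₁ := by
    intro v hv hvx
    apply subset_span
    rw [Set.mem_iUnion₂]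
    refine ⟨i, hi1, ?_⟩
    rw [Function.update_self]
    exact Finset.mem_coe.mpr (Finset.mem_erase.mpr ⟨hvx, hv⟩)
  have hA4 : ∀ v ∈ A i, v ≠ y → v ∈ U₂ := by
    intro v hv hvx
    apply subset_span
    rw [Set.mem_iUnion₂]
    refine ⟨i, hi2', ?_⟩
    rw [Function.update_self]
    exact Finset.mem_coe.mpr (Finset.mem_erase.mpr ⟨hvx, hv⟩)
  have hsup : span ℚ (⋃ j ∈ I₁ ∪ I₂, (A j : Set V)) ≤ U₁ ⊔ U₂ := by
    rw [span_le]
    intro v hv
    rw [Set.mem_iUnion₂] at hv
    obtain ⟨j, hj, hv⟩ := hv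
    by_cases hji : j = i
    · subst hji
      by_cases hvx : v = x
      · exact (le_sup_right : U₂ ≤ U₁ ⊔ U₂) (hA4 v hv (by rw [hvx]; exact hxy))
      · exact (le_sup_left : U₁ ≤ U₁ ⊔ U₂) (hA3 v hv hvx)
    · rw [Finset.mem_union] at hj
      rcases hj with hj | hj
      · exact (le_sup_left : U₁ ≤ U₁ ⊔ U₂) (hA1 j hj hji v hv)
      · exact (le_sup_right : U₂ ≤ U₁ ⊔ U₂) (hA2 j hj hji v hv)
  have hinf : span ℚ (⋃ j ∈ (I₁ ∩ I₂).erase i, (A j : Set V)) ≤ U₁ ⊓ U₂ := by
    rw [span_le]
    intro v hv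
    rw [Set.mem_iUnion₂] at hv
    obtain ⟨j, hj, hv⟩ := hv
    rw [Finset.mem_erase, Finset.mem_inter] at hj
    exact ⟨hA1 j hj.2.1 hj.1 v hv, hA2 j hj.2.2 hj.1 v hv⟩
  have h3 := le_trans (h (I₁ ∪ I₂)) (finrank_mono hsup)
  have h4 := le_trans (h ((I₁ ∩ I₂).erase i)) (finrank_mono hinf)
  have h5 := Submodule.finrank_sup_add_finrank_inf_eq U₁ U₂
  have h6 := Finset.card_union_add_card_inter I₁ I₂
  have hmemI : i ∈ I₁ ∩ I₂ := Finset.mem_inter.mpr ⟨hi1, hi2'⟩
  rw [Finset.card_erase_of_mem hmemI] at h4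
  have h7 := Finset.card_pos.mpr ⟨i, hmemI⟩
  omega

/-- JOB ClG-2. RADO's theorem for vectors.
PROOF. Induction on `N = ∑ i, (A i).card` (generalising `A`). The condition for `{i}` shows
that every `A i` is nonempty. If all `A i` have exactly one element `f i`, the condition for
`univ` says that `card ι ≤ finrank (span (range f))`, so `f` is independent
(`linearIndependent_iff_card_le_finrank_span`). Otherwise some `A i` contains `x ≠ y`. If replacing
`A i` by `(A i).erase x` keeps the condition, use induction; the same for `y`. Otherwise there are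
`I₁`, `I₂` violating the two conditions; both contain `i` (else nothing changed). Put
`U₁ = span (⋃ j ∈ I₁, A' j)` (with `A' i = (A i).erase x`) and `U₂` in the same way (`y`).
`finrank U₁ + 1 ≤ I₁.card`, `finrank U₂ + 1 ≤ I₂.card`. `U₁ ⊔ U₂` contains all `A j`,
`j ∈ I₁ ∪ I₂` (also `j = i`, because `x ≠ y`), `U₁ ⊓ U₂` contains all `A j`, `j ∈ (I₁ ∩ I₂).erase i`.
So `finrank U₁ + finrank U₂ = finrank (U₁ ⊔ U₂) + finrank (U₁ ⊓ U₂) ≥ (I₁ ∪ I₂).card +
(I₁ ∩ I₂).card - 1 = I₁.card + I₂.card - 1`, contradiction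
(`Submodule.finrank_sup_add_finrank_inf_eq`). -/
theorem rado {ι : Type*} [Fintype ι] [DecidableEq ι] (A : ι → Finset V)
    (h : ∀ I : Finset ι, I.card ≤ finrank ℚ (span ℚ (⋃ i ∈ I, (A i : Set V)))) :
    ∃ f : ι → V, (∀ i, f i ∈ A i) ∧ LinearIndependent ℚ f :=
  rado_aux _ A rfl h

end Pool.Agent.Lib.ClG
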