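import Pool.Agent.Lib.ClG.Step4a

set_option autoImplicit false
set_option linter.unusedSectionVars false

open Finset Submodule Module

namespace Pool.Agent.Lib.ClG

variable {V : Type*} [AddCommGroup V] [Module ℚ V] [FiniteDimensional ℚ V] [DecidableEq V]

private lemma star_mem {ρ : Finset V} {a u v w : V} (hw : w ∈ ρ) (h1 : w ≠ a) (h2 : w ≠ u)
    (h3 : w ≠ v) : w ∈ ((ρ.erase a).erase u).erase v := by
  simp only [Finset.mem_erase]
  exact ⟨h3, h2, h1, hw⟩

private lemma star_card {ρ : Finset V} {a u v : V} (ha : a ∈ ρ) (hu : u ∈ ρ) (hv : v ∈ ρ)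
    (huv : u ≠ v) (hua : u ≠ a) (hva : v ≠ a) :
    (((ρ.erase a).erase u).erase v).card + 3 = ρ.card := by
  have h1 : u ∈ ρ.erase a := Finset.mem_erase.mpr ⟨hua, hu⟩
  have h2 : v ∈ (ρ.erase a).erase u :=
    Finset.mem_erase.mpr ⟨huv.symm, Finset.mem_erase.mpr ⟨hva, hv⟩⟩
  have c1 := Finset.card_erase_add_one ha
  have c2 := Finset.card_erase_add_one h1
  have c3 := Finset.card_erase_add_one h2
  omega

/-- JOB ClG-7 (4d). PROOF. Let `T = B.filter (fun b => x b = y b)` (classical), `H = ker (x - y)`. By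
`zo` and `hX`, `hY` an element `b ∈ B` is in `T` iff (`x b = y b = 0`) or `b = e`. `one ∈ H`.
`finrank H + 1 = finrank V` as `x ≠ y`. If `finrank (span T) ≥ finrank V - 1 = finrank H` then
`span T = H ∋ one`, so by `sys.gen` `span T = ⊤`, so `x = y`, contradiction. So
`finrank (span T) + 2 ≤ finrank V`. Let `ρ₁ = ((ρ.erase a).erase u).erase v`, `ρ₁.card + 3 = finrank V`;
`ρ₁ ⊆ T` (elements of `ρ` other than `a, u, v` have `x = y = 0`) and `e ∈ T`, and `e ∉ span ρ₁`
(`x e ≠ 0`, `x = 0` on `ρ₁`), so `finrank (span (insert e ρ₁)) = ρ₁.card + 1 = finrank V - 2`, and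
therefore `span T = span (insert e ρ₁)`. For `b ∈ B` with `x b = y b = 0`: `b ∈ T`, so
`b = θ • e + w`, `w ∈ span ρ₁` (`mem_span_insert`), `0 = x b = θ * x e`, so `θ = 0` and
`b ∈ span ρ₁`; use `mem_span_iff`. -/
theorem Ctx.star {B : Finset V} {one : V} {C : Finset (Dual ℚ V)} (hC : Ctx B one C)
    {x y : Dual ℚ V} (hx : x ∈ C) (hy : y ∈ C) (hxy : x ≠ y) {e : V} (he : e ∈ B)
    {ρ : Finset V} {a : V} (hG : GG B C x ρ a) (heρ : e ∉ ρ) {b₁ u v : V} (hb₁ : b₁ ∉ ρ)
    (hu : u ∈ ρ) (hv : v ∈ ρ) (huv : u ≠ v) (hua : u ≠ a) (hva : v ≠ a)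
    (hX : ∀ b ∈ B, x b ≠ 0 ↔ b = a ∨ b = b₁ ∨ b = e)
    (hY : ∀ b ∈ B, y b ≠ 0 ↔ b = u ∨ b = v ∨ b = e) {b : V} (hb : b ∈ B) (hxb : x b = 0)
    (hyb : y b = 0) : co ρ u b = 0 ∧ co ρ v b = 0 := by
  classical
  have hane : a ∈ ρ := hG.own.1
  have hxco : x = co ρ a := hG.own.eq_co hG.bas
  have hxe : x e ≠ 0 := (hX e he).mpr (Or.inr (Or.inr rfl))
  have hye : y e ≠ 0 := (hY e he).mpr (Or.inr (Or.inr rfl))
  have hxe1 : x e = 1 := (hC.zo x hx e he).resolve_left hxe
  have hye1 : y e = 1 := (hC.zo y hy e he).resolve_left hye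
  set T : Finset V := B.filter (fun b => x b = y b) with hT
  set ρ₁ : Finset V := ((ρ.erase a).erase u).erase v with hρ₁
  have hcard : ρ₁.card + 3 = ρ.card := star_card hane hu hv huv hua hva
  have hρ₁sub : ∀ w ∈ ρ₁, w ∈ ρ ∧ w ≠ a ∧ w ≠ u ∧ w ≠ v := by
    intro w hw
    simp only [hρ₁, Finset.mem_erase] at hw
    exact ⟨hw.2.2.2, hw.2.2.1, hw.2.1, hw.1⟩
  have hρ₁T : ∀ w ∈ ρ₁, w ∈ T := by
    intro w hw
    obtain ⟨h1, h2, h3, h4⟩ := hρ₁sub w hw
    have hwB : w ∈ B := hG.sub h1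
    have hwe : w ≠ e := by rintro rfl; exact heρ h1
    have hwb : w ≠ b₁ := by rintro rfl; exact hb₁ h1
    have e1 : x w = 0 := by
      by_contra h
      rcases (hX w hwB).mp h with h' | h' | h'
      · exact h2 h'
      · exact hwb h'
      · exact hwe h'
    have e2 : y w = 0 := by
      by_contra h
      rcases (hY w hwB).mp h with h' | h' | h'
      · exact h3 h'
      · exact h4 h'
      · exact hwe h'
    rw [hT, Finset.mem_filter]
    exact ⟨hwB, by rw [e1, e2]⟩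
  have heT : e ∈ T := by
    rw [hT, Finset.mem_filter]
    exact ⟨he, by rw [hxe1, hye1]⟩
  have hne : x - y ≠ 0 := sub_ne_zero.mpr hxy
  have hH := Module.Dual.finrank_ker_add_one_of_ne_zero hne
  have hTH : span ℚ (T : Set V) ≤ LinearMap.ker (x - y) := by
    rw [span_le]
    intro w hw
    rw [Finset.mem_coe, hT, Finset.mem_filter] at hw
    rw [SetLike.mem_coe, LinearMap.mem_ker, LinearMap.sub_apply, hw.2, sub_self]
  have hone : one ∈ LinearMap.ker (x - y) := by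
    rw [LinearMap.mem_ker, LinearMap.sub_apply, hC.sys.one x hx, hC.sys.one y hy, sub_self]
  have hTlt : finrank ℚ (span ℚ (T : Set V)) + 2 ≤ finrank ℚ V := by
    by_contra hcon
    have heq : span ℚ (T : Set V) = LinearMap.ker (x - y) :=
      Submodule.eq_of_le_of_finrank_le hTH (by omega)
    have htop := hC.sys.gen T (Finset.filter_subset _ _) (by rw [heq]; exact hone)
    rw [heq, LinearMap.ker_eq_top] at htop
    exact hne htop
  have hcoae : co ρ a e ≠ 0 := by rw [← hxco]; exact hxe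
  have hB' : IsB (insert e (ρ.erase a)) := Pool.Agent.Lib.ClG.exchange hG.bas hane hcoae
  have hsub' : insert e ρ₁ ⊆ insert e (ρ.erase a) := by
    apply Finset.insert_subset_insert
    intro w hw
    obtain ⟨h1, h2, _, _⟩ := hρ₁sub w hw
    exact Finset.mem_erase.mpr ⟨h2, h1⟩
  have heρ₁ : e ∉ ρ₁ := fun h => heρ (hρ₁sub e h).1
  have hfr : finrank ℚ (span ℚ ((insert e ρ₁ : Finset V) : Set V)) = ρ₁.card + 1 := by
    rw [hB'.finrank_sub hsub', Finset.card_insert_of_notMem heρ₁]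
  have hle : span ℚ ((insert e ρ₁ : Finset V) : Set V) ≤ span ℚ (T : Set V) := by
    apply span_mono
    intro w hw
    rw [Finset.mem_coe, Finset.mem_insert] at hw
    rcases hw with rfl | hw
    · exact heT
    · exact hρ₁T w hw
  have heq : span ℚ ((insert e ρ₁ : Finset V) : Set V) = span ℚ (T : Set V) := by
    apply Submodule.eq_of_le_of_finrank_le hle
    have := hG.bas.card
    omega
  have hbT : b ∈ span ℚ ((insert e ρ₁ : Finset V) : Set V) := by
    rw [heq]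
    apply subset_span
    rw [Finset.mem_coe, hT, Finset.mem_filter]
    exact ⟨hb, by rw [hxb, hyb]⟩
  rw [mem_span_iff hB' hsub'] at hbT
  have key : ∀ w ∈ ρ, w ≠ a → w ∉ ρ₁ → co ρ w b = 0 := by
    intro w hw hwa hw1
    have hwe : w ≠ e := by rintro rfl; exact heρ hw
    have h1 := hbT w (Finset.mem_insert_of_mem (Finset.mem_erase.mpr ⟨hwa, hw⟩)) (by
      rw [Finset.mem_insert, not_or]
      exact ⟨hwe, hw1⟩)
    rw [co_exchange_old hG.bas hane hcoae hw hwa, ← hxco, hxb, mul_zero, sub_zero] at h1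
    exact h1
  exact ⟨key u hu hua (fun h => (hρ₁sub u h).2.2.1 rfl), key v hv hva
    (fun h => (hρ₁sub v h).2.2.2 rfl)⟩

/-- JOB ClG-7 (second part). PROOF. Take `ρ, a` with `GG B C x ρ a`, `e ∉ ρ` (`Ctx.noncoloop`,
`Ctx.avoid`) and `b₁ u v` from `Ctx.shape`. For `b ∈ T` the coordinates `co ρ a b = x b = 0`,
`co ρ u b`, `co ρ v b` vanish (`Ctx.star`), so `T ⊆ span ρ₁`, `ρ₁ = ((ρ.erase a).erase u).erase v`
(`mem_span_iff`), `finrank (span T) ≤ ρ₁.card = finrank V - 3` and `3 ≤ ρ.card`. -/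
theorem Ctx.star_rank {B : Finset V} {one : V} {C : Finset (Dual ℚ V)} (hC : Ctx B one C)
    {x y : Dual ℚ V} (hx : x ∈ C) (hy : y ∈ C) (hxy : x ≠ y) {e : V} (he : e ∈ B)
    (hxe : x e ≠ 0) (hye : y e ≠ 0) (T : Set V) (hT : ∀ b ∈ T, b ∈ B ∧ x b = 0 ∧ y b = 0) :
    finrank ℚ (span ℚ T) + 3 ≤ finrank ℚ V := by
  obtain ⟨ρ, a, hG, heρ⟩ := hC.avoid hx he hxe (hC.noncoloop hx hy hxy he hxe hye)
  obtain ⟨b₁, u, v, _, hb₁, _, hu, hv, huv, hua, hva, hX, hY⟩ :=
    hC.shape hx hy hxy he hxe hye hG heρ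
  have hane : a ∈ ρ := hG.own.1
  have hxco : x = co ρ a := hG.own.eq_co hG.bas
  have hcard : (((ρ.erase a).erase u).erase v).card + 3 = ρ.card :=
    star_card hane hu hv huv hua hva
  have hsub : ((ρ.erase a).erase u).erase v ⊆ ρ :=
    (Finset.erase_subset _ _).trans ((Finset.erase_subset _ _).trans (Finset.erase_subset _ _))
  have hle : span ℚ T ≤ span ℚ ((((ρ.erase a).erase u).erase v : Finset V) : Set V) := by
    rw [span_le]
    intro b hb
    obtain ⟨hbB, hxb, hyb⟩ := hT b hb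
    have hst := hC.star hx hy hxy he hG heρ hb₁ hu hv huv hua hva hX hY hbB hxb hyb
    rw [SetLike.mem_coe, mem_span_iff hG.bas hsub]
    intro w hw hw1
    by_cases h1 : w = a
    · rw [h1, ← hxco, hxb]
    · by_cases h2 : w = u
      · rw [h2]; exact hst.1
      · by_cases h3 : w = v
        · rw [h3]; exact hst.2
        · exact absurd (star_mem hw h1 h2 h3) hw1
  have h1 := Submodule.finrank_mono hle
  rw [hG.bas.finrank_sub hsub] at h1
  have h2 := hG.bas.card
  omega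

end Pool.Agent.Lib.ClG
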