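import Pool.Agent.Lib.ClG.Easy

set_option autoImplicit false
set_option linter.unusedSectionVars false

open Finset Submodule Module

namespace Pool.Agent.Lib.ClG

variable {V : Type*} [AddCommGroup V] [Module ℚ V] [FiniteDimensional ℚ V] [DecidableEq V]

/-- `J` is a minimal all-bad family for `B - e` inside `C`, and a deficit for `B - e` -/
structure JE (B : Finset V) (C : Finset (Dual ℚ V)) (e : V) (J : Finset (Dual ℚ V)) : Prop where
  sub : J ⊆ C
  mini : Mini (B.erase e) J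
  dfc : Deficit (B.erase e) J

/-- the situation of Step 4 -/
structure Ctx (B : Finset V) (one : V) (C : Finset (Dual ℚ V)) : Prop where
  sys : Sys B one C
  mini : Mini B C
  zo : ∀ c ∈ C, ∀ b ∈ B, c b = 0 ∨ c b = 1
  je : ∀ e ∈ B, span ℚ ((B.erase e : Finset V) : Set V) = ⊤ → ∃ J, JE B C e J

/-- JOB ClG-5. PROOF. By `hM.2` (for `C.erase x ⊂ C`) there is a basis `ρ ⊆ B` without dual vector in
`C.erase x`; by `hM.1` it has one in `C`, which must be `x`. -/
theorem exists_GG {B : Finset V} {C : Finset (Dual ℚ V)} (hM : Mini B C) {x : Dual ℚ V}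
    (hx : x ∈ C) : ∃ ρ a, GG B C x ρ a := by
  classical
  have hne : ¬ AllBad B (C.erase x) := hM.2 _ (Finset.erase_ssubset hx)
  unfold AllBad at hne
  push Not at hne
  obtain ⟨ρ, hρB, hρ, hno⟩ := hne
  obtain ⟨c, hc, a, ha⟩ := hM.1 ρ hρB hρ
  have hcx : c = x := by
    by_contra h
    exact hno c (Finset.mem_erase.mpr ⟨h, hc⟩) a ha
  subst hcx
  refine ⟨ρ, a, hρB, hρ, hx, ha, ?_⟩
  intro d hd v hv
  by_contra h
  exact hno d (Finset.mem_erase.mpr ⟨h, hd⟩) v hv

/-- JOB ClG-5 (Step 2). PROOF. `x b = 1` by `hC.zo`; `co ρ a = x` (`IsDual.eq_co`), so the new set is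
a basis (`exchange`). `IsDual _ x b`: `x b = 1` and `x` vanishes on `ρ.erase a`. `only`: let
`IsDual (insert b (ρ.erase a)) c o`, `c ∈ C`. If `o = b`: `c` vanishes on `ρ.erase a`, so
`1 = c b = x b * c a = c a` (`one_term`), so `IsDual ρ c a` and `c = x` by `hG.only`. If `o = u ≠ b`,
`u ∈ ρ`, `u ≠ a`: `c u = 1`, `c` vanishes on the other elements of `ρ` except possibly `a`, and
`c a ∈ {0, 1}`. `c a = 0`: `IsDual ρ c u`, so `c = x`, but `x u = 0`; contradiction. `c a = 1`: by
`two_term` at `one`: `1 = co ρ u one + co ρ a one = co ρ u one + x one = co ρ u one + 1`, so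
`co ρ u one = 0`, contradiction to `Sys.co_one_ne`. -/
theorem Ctx.exchange {B : Finset V} {one : V} {C : Finset (Dual ℚ V)} (hC : Ctx B one C)
    {x : Dual ℚ V} {ρ : Finset V} {a b : V} (hG : GG B C x ρ a) (hb : b ∈ B) (hbρ : b ∉ ρ)
    (hxb : x b ≠ 0) : GG B C x (insert b (ρ.erase a)) b := by
  have ha : a ∈ ρ := hG.own.1
  have hxb1 : x b = 1 := (hC.zo x hG.mem b hb).resolve_left hxb
  have hco : x = co ρ a := hG.own.eq_co hG.bas
  have hbne : co ρ a b ≠ 0 := by rw [← hco]; exact hxb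
  have hB' := Pool.Agent.Lib.ClG.exchange hG.bas ha hbne
  have hbn : b ∉ ρ.erase a := fun h => hbρ (Finset.mem_of_mem_erase h)
  refine ⟨?_, hB', hG.mem, ?_, ?_⟩
  · exact Finset.insert_subset hb ((Finset.erase_subset _ _).trans hG.sub)
  · refine ⟨Finset.mem_insert_self _ _, hxb1, ?_⟩
    intro u hu hub
    rw [Finset.mem_insert, Finset.mem_erase] at hu
    rcases hu with hu | hu
    · exact absurd hu hub
    · exact hG.own.2.2 u hu.2 hu.1
  · intro c hc o ho
    by_cases hob : o = b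
    · subst hob
      have h0 : ∀ w ∈ ρ, w ≠ a → c w = 0 := by
        intro w hw hwa
        apply ho.2.2 w (Finset.mem_insert_of_mem (Finset.mem_erase.mpr ⟨hwa, hw⟩))
        rintro rfl
        exact hbρ hw
      have h1 := one_term hG.bas ha h0 o
      rw [ho.2.1, ← hco, hxb1, one_mul] at h1
      exact hG.only c hc a ⟨ha, h1.symm, h0⟩
    · exfalso
      have hoρ : o ∈ ρ.erase a := by
        rcases Finset.mem_insert.mp ho.1 with h | h
        · exact absurd h hob
        · exact h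
      rw [Finset.mem_erase] at hoρ
      obtain ⟨hoa, hoρ⟩ := hoρ
      have h0 : ∀ w ∈ ρ, w ≠ o → w ≠ a → c w = 0 := by
        intro w hw hwo hwa
        exact ho.2.2 w (Finset.mem_insert_of_mem (Finset.mem_erase.mpr ⟨hwa, hw⟩)) hwo
      rcases hC.zo c hc a (hG.sub ha) with hca | hca
      · have hd : IsDual ρ c o := by
          refine ⟨hoρ, ho.2.1, ?_⟩
          intro w hw hwo
          by_cases hwa : w = a
          · rw [hwa]; exact hca
          · exact h0 w hw hwo hwa
        have hcx := hG.only c hc o hd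
        have h1 := ho.2.1
        rw [hcx, hG.own.2.2 o hoρ hoa] at h1
        exact zero_ne_one h1
      · have h1 := two_term hG.bas hoρ ha hoa h0 one
        rw [hC.sys.one c hc, ho.2.1, hca, mul_one, mul_one, ← hco, hC.sys.one x hG.mem] at h1
        have h2 := hC.sys.co_one_ne hG.sub hG.bas hoρ
        apply h2
        linarith

/-- JOB ClG-5 (3c). PROOF. Suppose `B.erase e` does not span. Then every basis `ρ ⊆ B` contains `e`.
Claim: `x b = 0` for all `b ∈ B`, `b ≠ e` (and the same for `y`). Take `ρ, a` with `GG B C x ρ a`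
(`exists_GG`); `e ∈ ρ` and `x e ≠ 0`, so `a = e`. If `x b ≠ 0`, `b ≠ e`, then `b ∉ ρ` and
`Ctx.exchange` gives the basis `insert b (ρ.erase e) ⊆ B` without `e`, contradiction. So `x = y` on
`B` (`x e = 1 = y e` by `zo`) and `x = y` by `dual_ext_span`. -/
theorem Ctx.noncoloop {B : Finset V} {one : V} {C : Finset (Dual ℚ V)} (hC : Ctx B one C)
    {x y : Dual ℚ V} (hx : x ∈ C) (hy : y ∈ C) (hxy : x ≠ y) {e : V} (he : e ∈ B)
    (hxe : x e ≠ 0) (hye : y e ≠ 0) : span ℚ ((B.erase e : Finset V) : Set V) = ⊤ := by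
  by_contra hns
  have hmem : ∀ ρ : Finset V, ρ ⊆ B → IsB ρ → e ∈ ρ := by
    intro ρ hρB hρ
    by_contra heρ
    apply hns
    rw [eq_top_iff, ← hρ.2]
    apply span_mono
    intro v hv
    rw [Finset.mem_coe] at hv ⊢
    rw [Finset.mem_erase]
    refine ⟨?_, hρB hv⟩
    rintro rfl
    exact heρ hv
  have key : ∀ z ∈ C, z e ≠ 0 → ∀ b ∈ B, b ≠ e → z b = 0 := by
    intro z hz hze b hb hbe
    by_contra hzb
    obtain ⟨ρ, a, hG⟩ := exists_GG hC.mini hz
    have heρ := hmem ρ hG.sub hG.bas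
    have hea : e = a := by
      by_contra hea
      exact hze (hG.own.2.2 e heρ hea)
    subst hea
    have hbρ : b ∉ ρ := fun hbρ => hzb (hG.own.2.2 b hbρ hbe)
    have hG' := hC.exchange hG hb hbρ hzb
    have h1 := hmem _ hG'.sub hG'.bas
    rw [Finset.mem_insert] at h1
    rcases h1 with h1 | h1
    · exact hbe h1.symm
    · exact Finset.notMem_erase e ρ h1
  apply hxy
  apply dual_ext_span hC.sys.sp
  intro b hb
  by_cases hbe : b = e
  · rw [hbe, (hC.zo x hx e he).resolve_left hxe, (hC.zo y hy e he).resolve_left hye]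
  · rw [key x hx hxe b hb hbe, key y hy hye b hb hbe]

/-- JOB ClG-5 (3b). PROOF. Take `ρ, a` with `GG B C x ρ a`. If `e ∈ ρ` then `a = e` (`x e ≠ 0`). `x`
does not vanish on `B.erase e` (`dual_ext_span` with `hsp`; `x one = 1`), so there is `b ∈ B`,
`b ≠ e`, `x b ≠ 0`; `b ∉ ρ`; use `Ctx.exchange`. -/
theorem Ctx.avoid {B : Finset V} {one : V} {C : Finset (Dual ℚ V)} (hC : Ctx B one C)
    {x : Dual ℚ V} (hx : x ∈ C) {e : V} (he : e ∈ B) (hxe : x e ≠ 0)
    (hsp : span ℚ ((B.erase e : Finset V) : Set V) = ⊤) : ∃ ρ a, GG B C x ρ a ∧ e ∉ ρ := by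
  obtain ⟨ρ, a, hG⟩ := exists_GG hC.mini hx
  by_cases heρ : e ∈ ρ
  · have hea : e = a := by
      by_contra hea
      exact hxe (hG.own.2.2 e heρ hea)
    subst hea
    have hex : ∃ b ∈ B, b ≠ e ∧ x b ≠ 0 := by
      by_contra hno
      push Not at hno
      have h0 : x = 0 := by
        apply dual_ext_span hsp
        intro v hv
        rw [Finset.mem_erase] at hv
        rw [hno v hv.2 hv.1, LinearMap.zero_apply]
      apply hxe
      rw [h0, LinearMap.zero_apply]
    obtain ⟨b, hb, hbe, hxb⟩ := hex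
    have hbρ : b ∉ ρ := fun hbρ => hxb (hG.own.2.2 b hbρ hbe)
    refine ⟨_, b, hC.exchange hG hb hbρ hxb, ?_⟩
    rw [Finset.mem_insert, not_or]
    exact ⟨fun h => hbe h.symm, Finset.notMem_erase e ρ⟩
  · exact ⟨ρ, a, hG, heρ⟩

/-- (3a) tightness -/
theorem Ctx.tight {B : Finset V} {one : V} {C : Finset (Dual ℚ V)} (hC : Ctx B one C) {e : V}
    {J : Finset (Dual ℚ V)} (hJ : JE B C e J) {x : Dual ℚ V} {ρ : Finset V} {a : V}
    (hG : GG B C x ρ a) (heρ : e ∉ ρ) :
    x ∈ J ∧ (∀ c ∈ J, c ≠ x → (PF ρ c).card = 2) ∧ (PJF ρ J).card + 1 = 2 * J.card ∧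
      PJ (B.erase e) J ⊆ (span ℚ (PJF ρ J : Set V) : Set V) := by
  apply Pool.Agent.Lib.ClG.tight (one := one) (fun c hc => hC.sys.one c (hJ.sub hc)) hJ.dfc
  · intro v hv
    rw [Finset.mem_erase]
    refine ⟨?_, hG.sub hv⟩
    rintro rfl
    exact heρ hv
  · exact hG.bas
  · intro c hc v hv
    exact hG.only c (hJ.sub hc) v hv

end Pool.Agent.Lib.ClG
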