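import Pool.Agent.Lib.ClG.Step2

set_option autoImplicit false
set_option linter.unusedSectionVars false

open Finset Submodule Module

namespace Pool.Agent.Lib.ClG

variable {V : Type*} [AddCommGroup V] [Module ℚ V] [FiniteDimensional ℚ V] [DecidableEq V]

/-- columns of `C` which meet in `e` lie in `J` -/
theorem Ctx.mem_JE {B : Finset V} {one : V} {C : Finset (Dual ℚ V)} (hC : Ctx B one C)
    {x : Dual ℚ V} (hx : x ∈ C) {e : V} (he : e ∈ B) (hxe : x e ≠ 0)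
    (hsp : span ℚ ((B.erase e : Finset V) : Set V) = ⊤) {J : Finset (Dual ℚ V)}
    (hJ : JE B C e J) : x ∈ J := by
  obtain ⟨ρ, a, hG, heρ⟩ := hC.avoid hx he hxe hsp
  exact (hC.tight hJ hG heρ).1

/-- JOB ClG-6 (4a). PROOF. Suppose `e ≠ f`. `hC.noncoloop` (at `e`) and `hC.je` give `J` with
`JE B C e J`; `x, y ∈ J` by `Ctx.mem_JE`. `hJ.dfc.dj` at `f ∈ B.erase e` gives `x f = 0` or `y f = 0`,
contradiction. -/
theorem Ctx.inter {B : Finset V} {one : V} {C : Finset (Dual ℚ V)} (hC : Ctx B one C)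
    {x y : Dual ℚ V} (hx : x ∈ C) (hy : y ∈ C) (hxy : x ≠ y) {e f : V} (he : e ∈ B)
    (hxe : x e ≠ 0) (hye : y e ≠ 0) (hf : f ∈ B) (hxf : x f ≠ 0) (hyf : y f ≠ 0) : f = e := by
  by_contra hfe
  have hsp := hC.noncoloop hx hy hxy he hxe hye
  obtain ⟨J, hJ⟩ := hC.je e he hsp
  have hxJ := hC.mem_JE hx he hxe hsp hJ
  have hyJ := hC.mem_JE hy he hye hsp hJ
  rcases hJ.dfc.dj x hxJ y hyJ hxy f (Finset.mem_erase.mpr ⟨hfe, hf⟩) with h | h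
  · exact hxf h
  · exact hyf h

/-- JOB ClG-6 (4b). PROOF. Suppose `f ∉ ρ`. Then `B.erase f` contains the basis `ρ`, so it spans; take
`J` with `JE B C f J`. `y ∈ J` by `hC.tight` (for `f`, `hG`), `x ∈ J` by `Ctx.mem_JE` (at `f`), and
`x`, `y` meet in `e ∈ B.erase f`, contradiction to `hJ.dfc.dj`. -/
theorem Ctx.mem_rho {B : Finset V} {one : V} {C : Finset (Dual ℚ V)} (hC : Ctx B one C)
    {x y : Dual ℚ V} (hx : x ∈ C) (hy : y ∈ C) (hxy : x ≠ y) {e f : V} (he : e ∈ B)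
    (hxe : x e ≠ 0) (hye : y e ≠ 0) (hf : f ∈ B) (hxf : x f ≠ 0) (hfe : f ≠ e)
    {ρ : Finset V} {a : V} (hG : GG B C y ρ a) : f ∈ ρ := by
  by_contra hfρ
  have hsp : span ℚ ((B.erase f : Finset V) : Set V) = ⊤ := by
    rw [eq_top_iff, ← hG.bas.2]
    apply span_mono
    intro v hv
    rw [Finset.mem_coe] at hv ⊢
    rw [Finset.mem_erase]
    refine ⟨?_, hG.sub hv⟩
    rintro rfl
    exact hfρ hv
  obtain ⟨J, hJ⟩ := hC.je f hf hsp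
  have hyJ := (hC.tight hJ hG hfρ).1
  have hxJ := hC.mem_JE hx hf hxf hsp hJ
  rcases hJ.dfc.dj x hxJ y hyJ hxy e (Finset.mem_erase.mpr ⟨fun h => hfe h.symm, he⟩) with h | h
  · exact hxe h
  · exact hye h

/-- auxiliary: the support of the second column -/
private theorem Ctx.shape_aux {B : Finset V} {one : V} {C : Finset (Dual ℚ V)} (hC : Ctx B one C)
    {x y : Dual ℚ V} (hx : x ∈ C) (hy : y ∈ C) (hxy : x ≠ y) {e : V} (he : e ∈ B)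
    (hxe : x e ≠ 0) (hye : y e ≠ 0) {ρ : Finset V} {a : V} (hG : GG B C x ρ a) (heρ : e ∉ ρ) :
    ∃ u v, u ∈ ρ ∧ v ∈ ρ ∧ u ≠ v ∧ (∀ b ∈ B, y b ≠ 0 ↔ b = u ∨ b = v ∨ b = e) := by
  have hsp := hC.noncoloop hx hy hxy he hxe hye
  obtain ⟨J, hJ⟩ := hC.je e he hsp
  have hyJ := hC.mem_JE hy he hye hsp hJ
  have hcard := (hC.tight hJ hG heρ).2.1 y hyJ hxy.symm
  obtain ⟨u, v, huv, hPF⟩ := Finset.card_eq_two.mp hcard
  have hu : u ∈ PF ρ y := by rw [hPF]; simp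
  have hv : v ∈ PF ρ y := by rw [hPF]; simp
  rw [mem_PF] at hu hv
  refine ⟨u, v, hu.1, hv.1, huv, fun b hb => ⟨fun hyb => ?_, ?_⟩⟩
  · by_cases hbe : b = e
    · exact Or.inr (Or.inr hbe)
    · have hbρ : b ∈ ρ := hC.mem_rho hy hx hxy.symm he hye hxe hb hyb hbe hG
      have hbP : b ∈ PF ρ y := mem_PF.mpr ⟨hbρ, hyb⟩
      rw [hPF, Finset.mem_insert, Finset.mem_singleton] at hbP
      rcases hbP with h | h
      · exact Or.inl h
      · exact Or.inr (Or.inl h)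
  · rintro (rfl | rfl | rfl)
    · exact hu.2
    · exact hv.2
    · exact hye

/-- JOB ClG-6 (4c). PROOF. Let `J` be as in `Ctx.je` for `e` (`Ctx.noncoloop`); `x, y ∈ J`
(`Ctx.mem_JE`). By `hC.tight hJ hG heρ`: `(PF ρ y).card = 2`, so `PF ρ y = {u, v}`. By `Ctx.mem_rho`
(with `x` and `y` exchanged) every `b ∈ B`, `b ≠ e`, `y b ≠ 0` is in `ρ`, so in `{u, v}`. `a ∉ {u, v}`:
otherwise `y a ≠ 0`, `x a ≠ 0` and `a = e` by `Ctx.inter`, but `e ∉ ρ`. Now take `ρ', a'` with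
`GG B C y ρ' a'` and `e ∉ ρ'` (`Ctx.avoid`); `(PF ρ' x).card = 2` and every `b ∈ B`, `b ≠ e`,
`x b ≠ 0` is in `ρ'` (`Ctx.mem_rho`), so `PF B x` has the elements `e, p, q` only. `a` is one of `p, q`;
let `b₁` be the other one. `b₁ ∉ ρ` because `x b₁ ≠ 0`, `b₁ ≠ a`. -/
theorem Ctx.shape {B : Finset V} {one : V} {C : Finset (Dual ℚ V)} (hC : Ctx B one C)
    {x y : Dual ℚ V} (hx : x ∈ C) (hy : y ∈ C) (hxy : x ≠ y) {e : V} (he : e ∈ B)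
    (hxe : x e ≠ 0) (hye : y e ≠ 0) {ρ : Finset V} {a : V} (hG : GG B C x ρ a) (heρ : e ∉ ρ) :
    ∃ b₁ u v, b₁ ∈ B ∧ b₁ ∉ ρ ∧ b₁ ≠ e ∧ u ∈ ρ ∧ v ∈ ρ ∧ u ≠ v ∧ u ≠ a ∧ v ≠ a ∧
      (∀ b ∈ B, x b ≠ 0 ↔ b = a ∨ b = b₁ ∨ b = e) ∧
      (∀ b ∈ B, y b ≠ 0 ↔ b = u ∨ b = v ∨ b = e) := by
  obtain ⟨u, v, hu, hv, huv, hyuv⟩ := hC.shape_aux hx hy hxy he hxe hye hG heρ
  have hsp := hC.noncoloop hx hy hxy he hxe hye
  obtain ⟨ρ', a', hG', heρ'⟩ := hC.avoid hy he hye hsp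
  obtain ⟨p, q, hp, hq, hpq, hxpq⟩ := hC.shape_aux hy hx hxy.symm he hye hxe hG' heρ'
  have haρ : a ∈ ρ := hG.own.1
  have hxa : x a ≠ 0 := by rw [hG.own.2.1]; exact one_ne_zero
  have hae : a ≠ e := by rintro rfl; exact heρ haρ
  have hyu : y u ≠ 0 := (hyuv u (hG.sub hu)).mpr (Or.inl rfl)
  have hyv : y v ≠ 0 := (hyuv v (hG.sub hv)).mpr (Or.inr (Or.inl rfl))
  have hne : ∀ w ∈ ρ, y w ≠ 0 → w ≠ a := by
    intro w hw hyw hwa
    rw [hwa] at hyw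
    exact hae (hC.inter hx hy hxy he hxe hye (hG.sub haρ) hxa hyw)
  have hpe : p ≠ e := by rintro rfl; exact heρ' hp
  have hqe : q ≠ e := by rintro rfl; exact heρ' hq
  have hpB := hG'.sub hp
  have hqB := hG'.sub hq
  have hxp : x p ≠ 0 := (hxpq p hpB).mpr (Or.inl rfl)
  have hxq : x q ≠ 0 := (hxpq q hqB).mpr (Or.inr (Or.inl rfl))
  have hout : ∀ w, x w ≠ 0 → w ≠ a → w ∉ ρ := fun w hxw hwa hw => hxw (hG.own.2.2 w hw hwa)
  rcases (hxpq a (hG.sub haρ)).mp hxa with h | h | h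
  · subst h
    exact ⟨q, u, v, hqB, hout q hxq hpq.symm, hqe, hu, hv, huv, hne u hu hyu, hne v hv hyv,
      hxpq, hyuv⟩
  · subst h
    refine ⟨p, u, v, hpB, hout p hxp hpq, hpe, hu, hv, huv, hne u hu hyu, hne v hv hyv,
      fun b hb => ?_, hyuv⟩
    rw [hxpq b hb]
    tauto
  · exact absurd h hae

end Pool.Agent.Lib.ClG
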